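import Mathlib
import Pool.Agent.H103R3.FrameCrit

/-!
# Moments of the phases of the triple products of a maximal ETF
-/

set_option autoImplicit false

namespace Pool.Agent.Q240.SIC.Mom

open scoped InnerProductSpace ComplexConjugate ComplexOrder
open Finset Matrix

variable {d : ℕ}

/-- the `m`-th powers of the inner products, with zero diagonal -/
noncomputable def B (x : Fin (d ^ 2) → EuclideanSpace ℂ (Fin d)) (m : ℕ) :
    Matrix (Fin (d ^ 2)) (Fin (d ^ 2)) ℂ :=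
  Matrix.of fun i j => if i = j then 0 else ⟪x i, x j⟫_ℂ ^ m

/-- ordered triples of distinct indices -/
def T (n : ℕ) : Finset (Fin n × Fin n × Fin n) :=
  univ.filter fun t => t.1 ≠ t.2.1 ∧ t.2.1 ≠ t.2.2 ∧ t.2.2 ≠ t.1

theorem trace_B3 (x : Fin (d ^ 2) → EuclideanSpace ℂ (Fin d)) (m : ℕ) :
    (B x m * B x m * B x m).trace =
      ∑ t ∈ T (d ^ 2), (⟪x t.1, x t.2.1⟫_ℂ * ⟪x t.2.1, x t.2.2⟫_ℂ * ⟪x t.2.2, x t.1⟫_ℂ) ^ m := by
  rw [T, Finset.sum_filter, Fintype.sum_prod_type]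
  simp only [Matrix.trace, Matrix.diag_apply, Matrix.mul_apply, Fintype.sum_prod_type]
  refine Finset.sum_congr rfl fun i _ => ?_
  rw [Finset.sum_comm' (t' := univ) (s' := fun _ => univ) (by simp)]
  rw [Finset.sum_comm]
  simp_rw [Finset.sum_mul]
  rw [Finset.sum_comm]
  refine Finset.sum_congr rfl fun j _ => Finset.sum_congr rfl fun k _ => ?_
  simp only [B, Matrix.of_apply]
  by_cases h1 : i = j
  · simp [h1]
  by_cases h2 : j = k
  · simp [h2]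
  by_cases h3 : k = i
  · simp [h3]
  simp only [h1, h2, h3, if_false, ne_eq, not_false_eq_true, and_self, if_true]
  ring

/-- the Gram matrix -/
noncomputable def G (x : Fin (d ^ 2) → EuclideanSpace ℂ (Fin d)) :
    Matrix (Fin (d ^ 2)) (Fin (d ^ 2)) ℂ := Matrix.of fun i j => ⟪x i, x j⟫_ℂ

section sic

variable (hd : 0 < d) {x : Fin (d ^ 2) → EuclideanSpace ℂ (Fin d)} (h1 : ∀ i, ‖x i‖ = 1)
  (h2 : ∀ i j, i ≠ j → ‖⟪x i, x j⟫_ℂ‖ = 1 / Real.sqrt ((d : ℝ) + 1))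

include h1 in
theorem G_diag (i : Fin (d ^ 2)) : ⟪x i, x i⟫_ℂ = 1 := by
  rw [inner_self_eq_norm_sq_to_K, h1]; simp

include hd h1 h2 in
theorem GG : G x * G x = (d : ℂ) • G x := by
  ext i j
  simp only [Matrix.mul_apply, G, Matrix.of_apply, Matrix.smul_apply, smul_eq_mul]
  exact Pool.Agent.H103R3.FrameCrit.sic_frame hd (by simp) x h1 h2 (x i) (x j)

include hd h1 h2 in
theorem AA : (G x ⊙ G x) * (G x ⊙ G x) = (2 * (d : ℂ) / (d + 1)) • (G x ⊙ G x) := by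
  ext i j
  simp only [Matrix.mul_apply, G, Matrix.of_apply, Matrix.smul_apply, smul_eq_mul,
    Matrix.hadamard_apply]
  have h := Pool.Agent.H103R3.FrameCrit.sic_design hd (κ := Fin (d ^ 2)) (by simp) x h1 h2
    (x i) (x j) (x i) (x j)
  rw [show (2 * (d : ℂ) / (d + 1)) * (⟪x i, x j⟫_ℂ * ⟪x i, x j⟫_ℂ) =
    (d : ℂ) / (d + 1) * (⟪x i, x j⟫_ℂ * ⟪x i, x j⟫_ℂ + ⟪x i, x j⟫_ℂ * ⟪x i, x j⟫_ℂ) by ring, ← h]
  refine Finset.sum_congr rfl fun k _ => ?_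
  ring

include h1 in
theorem B_eq (m : ℕ) : B x m = (Matrix.of fun i j => ⟪x i, x j⟫_ℂ ^ m) - 1 := by
  ext i j
  simp only [B, Matrix.of_apply, Matrix.sub_apply, Matrix.one_apply]
  split_ifs with h
  · subst h; rw [G_diag h1, one_pow, sub_self]
  · rw [sub_zero]

include h1 in
theorem B1 : B x 1 = G x - 1 := by
  rw [B_eq h1]; simp [G]

include h1 in
theorem B2 : B x 2 = G x ⊙ G x - 1 := by
  rw [B_eq h1]
  congr 1
  ext i j
  simp [G, sq]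

include h1 in
theorem B3 : B x 3 = (G x ⊙ G x) ⊙ G x - 1 := by
  rw [B_eq h1]
  congr 1
  ext i j
  simp only [G, Matrix.of_apply, Matrix.hadamard_apply]
  ring

theorem cube_aux {n : ℕ} (A : Matrix (Fin n) (Fin n) ℂ) (c : ℂ) (h : A * A = c • A) :
    (A - 1) * (A - 1) * (A - 1) = (c ^ 2 - 3 * c + 3) • A - 1 := by
  have e : (A - 1) * (A - 1) * (A - 1) = A * A * A - (3 : ℂ) • (A * A) + (3 : ℂ) • A - 1 := by
    have h3 : (3 : ℂ) = 1 + 1 + 1 := by norm_num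
    rw [h3]
    simp only [add_smul, one_smul]
    noncomm_ring
  rw [e, h, Matrix.smul_mul, h]
  simp only [smul_smul]
  module

include hd h1 h2 in
theorem trace1 : (B x 1 * B x 1 * B x 1).trace =
    (d : ℂ) ^ 2 * (d - 1) * (d - 2) := by
  rw [B1 h1, cube_aux _ _ (GG hd h1 h2), Matrix.trace_sub, Matrix.trace_smul, Matrix.trace_one,
    smul_eq_mul]
  have : (G x).trace = (d : ℂ) ^ 2 := by
    simp [Matrix.trace, G, h1]
  rw [this]
  simp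
  ring

include hd h1 h2 in
theorem trace2 : (B x 2 * B x 2 * B x 2).trace =
    - 2 * (d : ℂ) ^ 2 * (d - 1) / (d + 1) ^ 2 := by
  have hd1 : (d : ℂ) + 1 ≠ 0 := by exact_mod_cast Nat.succ_ne_zero d
  rw [B2 h1, cube_aux _ _ (AA hd h1 h2), Matrix.trace_sub, Matrix.trace_smul, Matrix.trace_one,
    smul_eq_mul]
  have : (G x ⊙ G x).trace = (d : ℂ) ^ 2 := by
    simp [Matrix.trace, G, h1]
  rw [this]
  simp
  field_simp
  ring

theorem G_psd : (G x).PosSemidef := by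
  have := Matrix.posSemidef_gram (𝕜 := ℂ) x
  exact this

include hd h1 h2 in
theorem cA_psd : ((2 * (d : ℂ) / (d + 1)) • (1 : Matrix (Fin (d ^ 2)) (Fin (d ^ 2)) ℂ) -
    G x ⊙ G x).PosSemidef := by
  have hd0 : (0 : ℝ) < d := by exact_mod_cast hd
  set c : ℂ := 2 * (d : ℂ) / (d + 1) with hc
  have hcr : c = ((2 * (d : ℝ) / (d + 1) : ℝ) : ℂ) := by rw [hc]; push_cast; rfl
  have hc0 : c ≠ 0 := by
    rw [hcr]
    have : (2 * (d : ℝ) / (d + 1) : ℝ) ≠ 0 := by positivity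
    exact_mod_cast this
  have hH : (c • (1 : Matrix (Fin (d ^ 2)) (Fin (d ^ 2)) ℂ) - G x ⊙ G x).IsHermitian := by
    have hA := (G_psd (x := x)).isHermitian.hadamard (G_psd (x := x)).isHermitian
    unfold Matrix.IsHermitian
    rw [Matrix.conjTranspose_sub, Matrix.conjTranspose_smul, Matrix.conjTranspose_one, hA.eq, hcr]
    simp
  have h3 : (c • (1 : Matrix (Fin (d ^ 2)) (Fin (d ^ 2)) ℂ) - G x ⊙ G x) =
      c⁻¹ • ((c • (1 : Matrix (Fin (d ^ 2)) (Fin (d ^ 2)) ℂ) - G x ⊙ G x)ᴴ *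
        (c • (1 : Matrix (Fin (d ^ 2)) (Fin (d ^ 2)) ℂ) - G x ⊙ G x)) := by
    rw [hH.eq]
    have e : (c • (1 : Matrix (Fin (d ^ 2)) (Fin (d ^ 2)) ℂ) - G x ⊙ G x) *
        (c • (1 : Matrix (Fin (d ^ 2)) (Fin (d ^ 2)) ℂ) - G x ⊙ G x) =
        c • (c • (1 : Matrix (Fin (d ^ 2)) (Fin (d ^ 2)) ℂ) - G x ⊙ G x) := by
      rw [sub_mul, mul_sub, mul_sub, AA hd h1 h2, ← hc]
      simp only [Matrix.smul_mul, Matrix.mul_smul, one_mul, mul_one, smul_sub]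
      abel
    rw [e, smul_smul, inv_mul_cancel₀ hc0, one_smul]
  rw [h3]
  apply (Matrix.posSemidef_conjTranspose_mul_self _).smul
  rw [hcr, ← Complex.ofReal_inv]
  exact_mod_cast (by positivity : (0 : ℝ) ≤ (2 * (d : ℝ) / (d + 1))⁻¹)

/-- the third powers: `A = G ⊙ G ⊙ G` satisfies `0 ≤ A ≤ c` -/
theorem A3_psd : ((G x ⊙ G x) ⊙ G x).PosSemidef :=
  ((G_psd).hadamard G_psd).hadamard G_psd

include hd h1 h2 in
theorem cA3_psd : ((2 * (d : ℂ) / (d + 1)) • (1 : Matrix (Fin (d ^ 2)) (Fin (d ^ 2)) ℂ) -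
    (G x ⊙ G x) ⊙ G x).PosSemidef := by
  have h := (cA_psd hd h1 h2).hadamard (G_psd (x := x))
  have e : ((2 * (d : ℂ) / (d + 1)) • (1 : Matrix (Fin (d ^ 2)) (Fin (d ^ 2)) ℂ) -
      (G x ⊙ G x) ⊙ G x) = ((2 * (d : ℂ) / (d + 1)) •
      (1 : Matrix (Fin (d ^ 2)) (Fin (d ^ 2)) ℂ) - G x ⊙ G x) ⊙ G x := by
    ext i j
    simp only [Matrix.sub_apply, Matrix.smul_apply, Matrix.one_apply, Matrix.hadamard_apply, G,
      Matrix.of_apply, smul_eq_mul]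
    split_ifs with hij
    · subst hij
      rw [G_diag h1]
      ring
    · ring
  rw [e]
  exact h

theorem B_herm (m : ℕ) : (B x m)ᴴ = B x m := by
  ext i j
  simp only [B, Matrix.conjTranspose_apply, Matrix.of_apply]
  by_cases h : i = j
  · simp [h]
  · have h' : ¬ j = i := fun e => h e.symm
    rw [if_neg h, if_neg h', star_pow]
    congr 1
    exact inner_conj_symm (x i) (x j)

include h2 in
theorem trace_BB (m : ℕ) : (B x m * B x m).trace =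
    ((((d : ℝ) ^ 2 * ((d : ℝ) ^ 2 - 1)) / (((d : ℝ) + 1) ^ m) : ℝ) : ℂ) := by
  have hdp : (0 : ℝ) < (d : ℝ) + 1 := by positivity
  have e1 : ∀ i j : Fin (d ^ 2), B x m i j * B x m j i =
      if i = j then 0 else (((1 / ((d : ℝ) + 1) ^ m) : ℝ) : ℂ) := by
    intro i j
    simp only [B, Matrix.of_apply]
    by_cases h : i = j
    · simp [h]
    · have h' : ¬ j = i := fun e => h e.symm
      rw [if_neg h, if_neg h', if_neg h, ← mul_pow, Pool.Agent.H103R3.inner_mul_inner_of (h2 i j h)]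
      push_cast
      rw [div_pow, one_pow]
  simp only [Matrix.trace, Matrix.diag_apply, Matrix.mul_apply]
  rw [Finset.sum_congr rfl fun i _ => Finset.sum_congr rfl fun j _ => e1 i j]
  have e2 : ∀ i : Fin (d ^ 2), ∑ j : Fin (d ^ 2),
      (if i = j then 0 else (((1 / ((d : ℝ) + 1) ^ m) : ℝ) : ℂ)) =
      ((d : ℂ) ^ 2 - 1) * (((1 / ((d : ℝ) + 1) ^ m) : ℝ) : ℂ) := by
    intro i
    have e3 : ∀ j : Fin (d ^ 2), (if i = j then 0 else (((1 / ((d : ℝ) + 1) ^ m) : ℝ) : ℂ)) =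
      (((1 / ((d : ℝ) + 1) ^ m) : ℝ) : ℂ) -
        (if i = j then (((1 / ((d : ℝ) + 1) ^ m) : ℝ) : ℂ) else 0) := by
      intro j; split_ifs <;> simp
    rw [Finset.sum_congr rfl fun j _ => e3 j, Finset.sum_sub_distrib, Finset.sum_const,
      Finset.card_univ, Fintype.card_fin, Finset.sum_ite_eq, if_pos (mem_univ _), nsmul_eq_mul]
    push_cast
    ring
  rw [Finset.sum_congr rfl fun i _ => e2 i, Finset.sum_const, Finset.card_univ, Fintype.card_fin,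
    nsmul_eq_mul]
  push_cast
  ring

include hd h1 h2 in
theorem norm_trace3 : ‖(B x 3 * B x 3 * B x 3).trace‖ ≤
    ((d : ℝ) ^ 2 * ((d : ℝ) ^ 2 - 1)) / (((d : ℝ) + 1) ^ 3) := by
  have hd0 : (0 : ℝ) < d := by exact_mod_cast hd
  set t : ℝ := ((d : ℝ) ^ 2 * ((d : ℝ) ^ 2 - 1)) / (((d : ℝ) + 1) ^ 3) with ht
  have hBB := trace_BB h2 3
  rw [← ht] at hBB
  have hA : (G x ⊙ G x) ⊙ G x = B x 3 + 1 := by rw [B3 h1]; abel
  have p1 : 0 ≤ (B x 3 * ((G x ⊙ G x) ⊙ G x) * (B x 3)ᴴ).trace :=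
    (A3_psd.mul_mul_conjTranspose_same (B x 3)).trace_nonneg
  have p2 : 0 ≤ (B x 3 * ((2 * (d : ℂ) / (d + 1)) • (1 : Matrix (Fin (d ^ 2)) (Fin (d ^ 2)) ℂ) -
    (G x ⊙ G x) ⊙ G x) * (B x 3)ᴴ).trace :=
    ((cA3_psd hd h1 h2).mul_mul_conjTranspose_same (B x 3)).trace_nonneg
  rw [B_herm, hA] at p1 p2
  rw [mul_add, add_mul, mul_one, Matrix.trace_add, hBB] at p1
  rw [mul_sub, mul_add, mul_one, Matrix.mul_smul, mul_one, sub_mul, add_mul, Matrix.smul_mul,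
    Matrix.trace_sub, Matrix.trace_smul, Matrix.trace_add, hBB] at p2
  set z := (B x 3 * B x 3 * B x 3).trace with hz
  have ht0 : 0 ≤ t := by
    rw [ht]
    have : (1 : ℝ) ≤ (d : ℝ) ^ 2 := by
      have : (1 : ℝ) ≤ d := by exact_mod_cast hd
      nlinarith
    apply div_nonneg (mul_nonneg (by positivity) (by linarith)) (by positivity)
  rw [Complex.le_def] at p1 p2
  have him : z.im = 0 := by
    have := p1.2
    simpa using this.symm
  have hre1 : -t ≤ z.re := by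
    have := p1.1
    simp at this
    linarith
  have hre2 : z.re ≤ t := by
    have hc : (2 * (d : ℂ) / (d + 1)) = ((2 * (d : ℝ) / (d + 1) : ℝ) : ℂ) := by push_cast; rfl
    have h3 := p2.1
    rw [hc, smul_eq_mul, Complex.sub_re, Complex.re_ofReal_mul, Complex.add_re,
      Complex.ofReal_re, Complex.zero_re] at h3
    have hc2 : 2 * (d : ℝ) / (d + 1) ≤ 2 := by
      rw [div_le_iff₀ (by positivity)]
      linarith
    nlinarith
  have hzz : z = ((z.re : ℝ) : ℂ) := Complex.ext (by simp) (by simp [him])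
  rw [hzz, Complex.norm_real, Real.norm_eq_abs, abs_le]
  exact ⟨hre1, hre2⟩

/-- the phase of a triple -/
noncomputable def ph (x : Fin (d ^ 2) → EuclideanSpace ℂ (Fin d)) (i j k : Fin (d ^ 2)) : ℂ :=
  ((Real.sqrt ((d : ℝ) + 1) : ℝ) : ℂ) ^ 3 *
    (⟪x i, x j⟫_ℂ * ⟪x j, x k⟫_ℂ * ⟪x k, x i⟫_ℂ)

include h2 in
theorem ph_norm {i j k : Fin (d ^ 2)} (hij : i ≠ j) (hjk : j ≠ k) (hki : k ≠ i) :
    ‖ph x i j k‖ = 1 := by
  have hs : 0 < Real.sqrt ((d : ℝ) + 1) := Real.sqrt_pos.mpr (by positivity)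
  unfold ph
  rw [norm_mul, norm_mul, norm_mul, norm_pow, Complex.norm_real, Real.norm_of_nonneg hs.le,
    h2 _ _ hij, h2 _ _ hjk, h2 _ _ hki]
  field_simp

include hd h1 h2 in
theorem sum1 : ∑ t ∈ T (d ^ 2), ph x t.1 t.2.1 t.2.2 =
    ((Real.sqrt ((d : ℝ) + 1) ^ 3 * ((d : ℝ) ^ 2 * (d - 1) * (d - 2)) : ℝ) : ℂ) := by
  have h := trace_B3 x 1
  rw [trace1 hd h1 h2] at h
  simp only [pow_one] at h
  simp only [ph]
  rw [← Finset.mul_sum, ← h]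
  push_cast
  rfl

include hd h1 h2 in
theorem sum2 : ∑ t ∈ T (d ^ 2), ph x t.1 t.2.1 t.2.2 ^ 2 =
    ((-2 * ((d : ℝ) ^ 2 * ((d : ℝ) ^ 2 - 1)) : ℝ) : ℂ) := by
  have hd1 : (d : ℂ) + 1 ≠ 0 := by exact_mod_cast Nat.succ_ne_zero d
  have h := trace_B3 x 2
  rw [trace2 hd h1 h2] at h
  simp only [ph, mul_pow] at h ⊢
  rw [← Finset.mul_sum, ← h]
  have hs : ((Real.sqrt ((d : ℝ) + 1) : ℝ) : ℂ) ^ 2 = (d : ℂ) + 1 := by
    rw [← Complex.ofReal_pow, Real.sq_sqrt (by positivity)]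
    push_cast
    rfl
  rw [show ((((Real.sqrt ((d : ℝ) + 1) : ℝ) : ℂ)) ^ 3) ^ 2 =
    ((((Real.sqrt ((d : ℝ) + 1) : ℝ) : ℂ)) ^ 2) ^ 3 by ring, hs]
  push_cast
  field_simp
  ring

include hd h1 h2 in
theorem sum3 : ‖∑ t ∈ T (d ^ 2), ph x t.1 t.2.1 t.2.2 ^ 3‖ ≤
    Real.sqrt ((d : ℝ) + 1) ^ 3 * ((d : ℝ) ^ 2 * ((d : ℝ) ^ 2 - 1)) := by
  have h := trace_B3 x 3
  have h3 := norm_trace3 hd h1 h2
  rw [h] at h3
  simp only [ph, mul_pow] at h3 ⊢
  rw [← Finset.mul_sum, norm_mul]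
  have hs0 := Real.sqrt_nonneg ((d : ℝ) + 1)
  have hs2 : Real.sqrt ((d : ℝ) + 1) ^ 2 = (d : ℝ) + 1 := Real.sq_sqrt (by positivity)
  rw [norm_pow, norm_pow, Complex.norm_real, Real.norm_of_nonneg hs0]
  calc (Real.sqrt ((d : ℝ) + 1) ^ 3) ^ 3 * _ ≤ (Real.sqrt ((d : ℝ) + 1) ^ 3) ^ 3 *
        (((d : ℝ) ^ 2 * ((d : ℝ) ^ 2 - 1)) / (((d : ℝ) + 1) ^ 3)) :=
          mul_le_mul_of_nonneg_left h3 (by positivity)
    _ = _ := by
      rw [show (Real.sqrt ((d : ℝ) + 1) ^ 3) ^ 3 = Real.sqrt ((d : ℝ) + 1) ^ 3 *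
        (Real.sqrt ((d : ℝ) + 1) ^ 2) ^ 3 by ring, hs2]
      field_simp

/-- the sums at a pair -/
def K (i j : Fin (d ^ 2)) : Finset (Fin (d ^ 2)) := univ.filter fun k => k ≠ i ∧ k ≠ j

theorem sum_K {i j : Fin (d ^ 2)} (hij : i ≠ j) (f : Fin (d ^ 2) → ℂ) :
    ∑ k ∈ K i j, f k = ∑ k, f k - f i - f j := by
  have hK : K i j = (univ.erase i).erase j := by
    ext k
    simp only [K, mem_filter, mem_univ, true_and, mem_erase, and_true]
    exact and_comm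
  have h1 := Finset.add_sum_erase univ f (mem_univ i)
  have h2 := Finset.add_sum_erase (univ.erase i) f (mem_erase.2 ⟨hij.symm, mem_univ j⟩)
  rw [hK, ← h1, ← h2]
  ring

include hd h1 h2 in
theorem pair1 {i j : Fin (d ^ 2)} (hij : i ≠ j) : ∑ k ∈ K i j, ph x i j k =
    ((Real.sqrt ((d : ℝ) + 1) * (d - 2) : ℝ) : ℂ) := by
  have hd1 : (d : ℂ) + 1 ≠ 0 := by exact_mod_cast Nat.succ_ne_zero d
  have hg := Pool.Agent.H103R3.FrameCrit.sic_frame hd (κ := Fin (d ^ 2)) (by simp) x h1 h2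
    (x j) (x i)
  have hm := Pool.Agent.H103R3.inner_mul_inner_of (h2 i j hij)
  have hm' : ⟪x j, x i⟫_ℂ * ⟪x i, x j⟫_ℂ = ((1 / ((d : ℝ) + 1) : ℝ) : ℂ) := by
    rw [mul_comm]; exact hm
  have hs : ((Real.sqrt ((d : ℝ) + 1) : ℝ) : ℂ) ^ 2 = (d : ℂ) + 1 := by
    rw [← Complex.ofReal_pow, Real.sq_sqrt (by positivity)]
    push_cast
    rfl
  rw [sum_K hij]
  have e1 : ∑ k, ph x i j k = ((Real.sqrt ((d : ℝ) + 1) : ℝ) : ℂ) ^ 3 *
      (⟪x i, x j⟫_ℂ * (∑ k, ⟪x j, x k⟫_ℂ * ⟪x k, x i⟫_ℂ)) := by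
    rw [Finset.mul_sum, Finset.mul_sum]
    refine Finset.sum_congr rfl fun k _ => ?_
    unfold ph
    ring
  rw [e1, hg]
  unfold ph
  rw [G_diag h1, G_diag h1]
  have e2 : ((Real.sqrt ((d : ℝ) + 1) : ℝ) : ℂ) ^ 3 * (⟪x i, x j⟫_ℂ * ((d : ℂ) * ⟪x j, x i⟫_ℂ)) -
      ((Real.sqrt ((d : ℝ) + 1) : ℝ) : ℂ) ^ 3 * (⟪x i, x j⟫_ℂ * ⟪x j, x i⟫_ℂ * 1) -
      ((Real.sqrt ((d : ℝ) + 1) : ℝ) : ℂ) ^ 3 * (⟪x i, x j⟫_ℂ * 1 * ⟪x j, x i⟫_ℂ) =
      ((Real.sqrt ((d : ℝ) + 1) : ℝ) : ℂ) * (((Real.sqrt ((d : ℝ) + 1) : ℝ) : ℂ) ^ 2 *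
      ((⟪x i, x j⟫_ℂ * ⟪x j, x i⟫_ℂ) * (d - 2))) := by ring
  rw [e2, hm, hs]
  push_cast
  field_simp

include hd h1 h2 in
theorem pair2 {i j : Fin (d ^ 2)} (hij : i ≠ j) : ∑ k ∈ K i j, ph x i j k ^ 2 = -2 := by
  have hd1 : (d : ℂ) + 1 ≠ 0 := by exact_mod_cast Nat.succ_ne_zero d
  have hg := Pool.Agent.H103R3.FrameCrit.sic_design hd (κ := Fin (d ^ 2)) (by simp) x h1 h2
    (x j) (x i) (x j) (x i)
  have hm := Pool.Agent.H103R3.inner_mul_inner_of (h2 i j hij)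
  have hs : ((Real.sqrt ((d : ℝ) + 1) : ℝ) : ℂ) ^ 2 = (d : ℂ) + 1 := by
    rw [← Complex.ofReal_pow, Real.sq_sqrt (by positivity)]
    push_cast
    rfl
  rw [sum_K hij]
  have e1 : ∑ k, ph x i j k ^ 2 = (((Real.sqrt ((d : ℝ) + 1) : ℝ) : ℂ) ^ 2) ^ 3 *
      (⟪x i, x j⟫_ℂ ^ 2 * (∑ k, (⟪x j, x k⟫_ℂ * ⟪x k, x i⟫_ℂ) * (⟪x j, x k⟫_ℂ * ⟪x k, x i⟫_ℂ))) := by
    rw [Finset.mul_sum, Finset.mul_sum]
    refine Finset.sum_congr rfl fun k _ => ?_
    unfold ph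
    ring
  rw [e1, hg]
  unfold ph
  rw [G_diag h1, G_diag h1]
  have e2 : (((Real.sqrt ((d : ℝ) + 1) : ℝ) : ℂ) ^ 2) ^ 3 * (⟪x i, x j⟫_ℂ ^ 2 *
      ((d : ℂ) / (d + 1) * (⟪x j, x i⟫_ℂ * ⟪x j, x i⟫_ℂ + ⟪x j, x i⟫_ℂ * ⟪x j, x i⟫_ℂ))) -
      (((Real.sqrt ((d : ℝ) + 1) : ℝ) : ℂ) ^ 3 * (⟪x i, x j⟫_ℂ * ⟪x j, x i⟫_ℂ * 1)) ^ 2 -
      (((Real.sqrt ((d : ℝ) + 1) : ℝ) : ℂ) ^ 3 * (⟪x i, x j⟫_ℂ * 1 * ⟪x j, x i⟫_ℂ)) ^ 2 =
      (((Real.sqrt ((d : ℝ) + 1) : ℝ) : ℂ) ^ 2) ^ 3 * (⟪x i, x j⟫_ℂ * ⟪x j, x i⟫_ℂ) ^ 2 *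
      (2 * ((d : ℂ) / (d + 1)) - 2) := by ring
  rw [e2, hm, hs]
  push_cast
  field_simp
  ring

end sic

/-! ### Counting -/

theorem card_T (n : ℕ) (hn : 2 ≤ n) : ((T n).card : ℝ) = (n : ℝ) * (n - 1) * (n - 2) := by
  have h1 : (T n).card = ∑ i : Fin n, ∑ j : Fin n, ∑ k : Fin n,
      (if i ≠ j ∧ j ≠ k ∧ k ≠ i then 1 else 0) := by
    rw [T, Finset.card_filter, Fintype.sum_prod_type]
    refine Finset.sum_congr rfl fun i _ => ?_
    rw [Fintype.sum_prod_type]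
  have h2 : ∀ i j : Fin n, ∑ k : Fin n, (if i ≠ j ∧ j ≠ k ∧ k ≠ i then 1 else 0) =
      if i = j then 0 else n - 2 := by
    intro i j
    by_cases h : i = j
    · simp [h]
    · rw [if_neg h, ← Finset.card_filter]
      have : (univ.filter fun k => i ≠ j ∧ j ≠ k ∧ k ≠ i) = (univ.erase i).erase j := by
        ext k
        simp only [mem_filter, mem_univ, true_and, mem_erase, and_true, ne_eq, h,
          not_false_eq_true]
        constructor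
        · rintro ⟨a, b⟩
          exact ⟨fun e => a e.symm, b⟩
        · rintro ⟨a, b⟩
          exact ⟨fun e => a e.symm, b⟩
      rw [this, Finset.card_erase_of_mem (mem_erase.2 ⟨fun e => h e.symm, mem_univ j⟩),
        Finset.card_erase_of_mem (mem_univ i), Finset.card_univ, Fintype.card_fin]
      omega
  have h3 : ∀ i : Fin n, ∑ j : Fin n, (if i = j then 0 else n - 2) = (n - 1) * (n - 2) := by
    intro i
    rw [← Finset.add_sum_erase univ _ (mem_univ i), if_pos rfl, zero_add]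
    rw [Finset.sum_congr rfl (g := fun _ => n - 2) (fun j hj => by
      rw [if_neg (fun e => (mem_erase.1 hj).1 e.symm)])]
    rw [Finset.sum_const, Finset.card_erase_of_mem (mem_univ i), Finset.card_univ,
      Fintype.card_fin, smul_eq_mul]
  rw [h1, Finset.sum_congr rfl fun i _ => Finset.sum_congr rfl fun j _ => h2 i j,
    Finset.sum_congr rfl fun i _ => h3 i, Finset.sum_const, Finset.card_univ, Fintype.card_fin,
    smul_eq_mul]
  push_cast [Nat.cast_sub (by omega : 1 ≤ n), Nat.cast_sub hn]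
  ring

theorem re_sq {z : ℂ} (hz : ‖z‖ = 1) : z.re ^ 2 = 1 / 2 + (z ^ 2).re / 2 := by
  have h : z.re ^ 2 + z.im ^ 2 = 1 := by
    have := Complex.sq_norm z
    rw [hz, Complex.normSq_apply] at this
    nlinarith
  have h2 : (z ^ 2).re = z.re ^ 2 - z.im ^ 2 := by
    rw [sq, Complex.mul_re]; ring
  rw [h2]
  linarith

theorem re_cube {z : ℂ} (hz : ‖z‖ = 1) : z.re ^ 3 = (3 * z.re + (z ^ 3).re) / 4 := by
  have h : z.re ^ 2 + z.im ^ 2 = 1 := by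
    have := Complex.sq_norm z
    rw [hz, Complex.normSq_apply] at this
    nlinarith
  have h2 : (z ^ 3).re = z.re ^ 3 - 3 * z.re * z.im ^ 2 := by
    rw [show z ^ 3 = z * z * z by ring, Complex.mul_re, Complex.mul_re, Complex.mul_im]; ring
  rw [h2]
  have h3 : z.im ^ 2 = 1 - z.re ^ 2 := by linarith
  rw [h3]
  ring

theorem count_three {ι : Type} [DecidableEq ι] (S : Finset ι) (p : ι → ℂ) (hp : ∀ t ∈ S, ‖p t‖ = 1)
    (u : ℂ) (hu : ‖u‖ = 1) (c : ℝ) (hc0 : 0 < c) (hc1 : c ≤ 1) (M1 M2 M3 : ℝ)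
    (h1 : ‖∑ t ∈ S, p t‖ ≤ M1) (h2 : ‖∑ t ∈ S, p t ^ 2‖ ≤ M2) (h3 : ‖∑ t ∈ S, p t ^ 3‖ ≤ M3) :
    (1 - 2 * c ^ 2) / (4 * c) * S.card -
      ((3 * M1 + M3) / 4 + 1 / c * (M2 / 2) + (1 + 1 / (4 * c ^ 2)) * M1) ≤
    (1 + 1 / (2 * c)) ^ 2 * (S.filter fun t => c < (conj u * p t).re).card := by
  have hu' : ‖conj u‖ = 1 := by rw [Complex.norm_conj]; exact hu
  have hX : ∀ t ∈ S, ‖conj u * p t‖ = 1 := fun t ht => by rw [norm_mul, hu', hp t ht, one_mul]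
  have s1 : |∑ t ∈ S, (conj u * p t).re| ≤ M1 := by
    rw [← Complex.re_sum, ← Finset.mul_sum]
    refine (Complex.abs_re_le_norm _).trans ?_
    rw [norm_mul, hu', one_mul]
    exact h1
  have s2 : |∑ t ∈ S, ((conj u * p t) ^ 2).re| ≤ M2 := by
    simp_rw [mul_pow]
    rw [← Complex.re_sum, ← Finset.mul_sum]
    refine (Complex.abs_re_le_norm _).trans ?_
    rw [norm_mul, norm_pow, hu', one_pow, one_mul]
    exact h2
  have s3 : |∑ t ∈ S, ((conj u * p t) ^ 3).re| ≤ M3 := by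
    simp_rw [mul_pow]
    rw [← Complex.re_sum, ← Finset.mul_sum]
    refine (Complex.abs_re_le_norm _).trans ?_
    rw [norm_mul, norm_pow, hu', one_pow, one_mul]
    exact h3
  have hf : ∀ t ∈ S, (conj u * p t).re ^ 3 + (1 / c - c) * (conj u * p t).re ^ 2 +
      (1 / (4 * c ^ 2) - 1) * (conj u * p t).re - 1 / (4 * c) ≤
      if c < (conj u * p t).re then (1 + 1 / (2 * c)) ^ 2 else 0 := by
    intro t ht
    set X := (conj u * p t).re with hXd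
    have hX1 : X ≤ 1 := (Complex.re_le_norm _).trans (hX t ht).le
    have e : X ^ 3 + (1 / c - c) * X ^ 2 + (1 / (4 * c ^ 2) - 1) * X - 1 / (4 * c) =
        (X - c) * (X + 1 / (2 * c)) ^ 2 := by
      field_simp
      ring
    rw [e]
    split_ifs with h
    · have a1 : X - c ≤ 1 := by linarith
      have a2 : (X + 1 / (2 * c)) ^ 2 ≤ (1 + 1 / (2 * c)) ^ 2 := by
        apply pow_le_pow_left₀
        · have : 0 < 1 / (2 * c) := by positivity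
          linarith
        · linarith
      calc (X - c) * (X + 1 / (2 * c)) ^ 2 ≤ 1 * (X + 1 / (2 * c)) ^ 2 :=
            mul_le_mul_of_nonneg_right a1 (sq_nonneg _)
        _ ≤ _ := by rw [one_mul]; exact a2
    · push Not at h
      exact mul_nonpos_of_nonpos_of_nonneg (by linarith) (sq_nonneg _)
  have hsum := Finset.sum_le_sum hf
  rw [← Finset.sum_filter, Finset.sum_const, nsmul_eq_mul, Finset.sum_sub_distrib,
    Finset.sum_add_distrib, Finset.sum_add_distrib, ← Finset.mul_sum, ← Finset.mul_sum,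
    Finset.sum_const, nsmul_eq_mul, Finset.sum_congr rfl (fun t ht => re_sq (hX t ht)),
    Finset.sum_congr rfl (fun t ht => re_cube (hX t ht)), Finset.sum_add_distrib,
    Finset.sum_const, nsmul_eq_mul, ← Finset.sum_div, ← Finset.sum_div, Finset.sum_add_distrib,
    ← Finset.mul_sum] at hsum
  set A1 := ∑ t ∈ S, (conj u * p t).re
  set A2 := ∑ t ∈ S, ((conj u * p t) ^ 2).re
  set A3 := ∑ t ∈ S, ((conj u * p t) ^ 3).re
  rw [abs_le] at s1 s2 s3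
  have hM1 : 0 ≤ M1 := by linarith [s1.1, s1.2]
  have hM2 : 0 ≤ M2 := by linarith [s2.1, s2.2]
  have k1 : (1 / c - c) * (A2 / 2) ≥ - (1 / c * (M2 / 2)) := by
    have hc2 : 0 ≤ 1 / c - c := by
      rw [sub_nonneg, le_div_iff₀ hc0]
      nlinarith
    have : (1 / c - c) * (A2 / 2) ≥ (1 / c - c) * (-(M2 / 2)) :=
      mul_le_mul_of_nonneg_left (by linarith [s2.1]) hc2
    have h5 : 0 ≤ c * (M2 / 2) := by positivity
    linarith
  have k2 : (1 / (4 * c ^ 2) - 1) * A1 ≥ - ((1 + 1 / (4 * c ^ 2)) * M1) := by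
    have hq : 0 < 1 / (4 * c ^ 2) := by positivity
    have h6 : 1 / (4 * c ^ 2) * A1 ≥ 1 / (4 * c ^ 2) * (-M1) :=
      mul_le_mul_of_nonneg_left s1.1 hq.le
    linarith [s1.2]
  have k3 : (1 / c - c) * ((S.card : ℝ) * (1 / 2)) - (S.card : ℝ) * (1 / (4 * c)) =
      (1 - 2 * c ^ 2) / (4 * c) * S.card := by
    field_simp
    ring
  have k4 : (1 / c - c) * ((S.card : ℝ) * (1 / 2) + A2 / 2) =
    (1 / c - c) * ((S.card : ℝ) * (1 / 2)) + (1 / c - c) * (A2 / 2) := by ring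
  rw [k4] at hsum
  linarith [s3.1, s1.1]

theorem count_two {ι : Type} [DecidableEq ι] (S : Finset ι) (p : ι → ℂ) (hp : ∀ t ∈ S, ‖p t‖ = 1)
    (u : ℂ) (hu : ‖u‖ = 1) (c : ℝ) (hc0 : 0 ≤ c) (hc1 : c ≤ 1) (M1 M2 : ℝ)
    (h1 : ‖∑ t ∈ S, p t‖ ≤ M1) (h2 : ‖∑ t ∈ S, p t ^ 2‖ ≤ M2) :
    (1 / 2 - c) * S.card - (M1 + M2 / 2) ≤
    2 * (S.filter fun t => c < (conj u * p t).re).card := by
  have hu' : ‖conj u‖ = 1 := by rw [Complex.norm_conj]; exact hu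
  have hX : ∀ t ∈ S, ‖conj u * p t‖ = 1 := fun t ht => by rw [norm_mul, hu', hp t ht, one_mul]
  have s1 : |∑ t ∈ S, (conj u * p t).re| ≤ M1 := by
    rw [← Complex.re_sum, ← Finset.mul_sum]
    refine (Complex.abs_re_le_norm _).trans ?_
    rw [norm_mul, hu', one_mul]
    exact h1
  have s2 : |∑ t ∈ S, ((conj u * p t) ^ 2).re| ≤ M2 := by
    simp_rw [mul_pow]
    rw [← Complex.re_sum, ← Finset.mul_sum]
    refine (Complex.abs_re_le_norm _).trans ?_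
    rw [norm_mul, norm_pow, hu', one_pow, one_mul]
    exact h2
  have hf : ∀ t ∈ S, (conj u * p t).re ^ 2 + (1 - c) * (conj u * p t).re - c ≤
      if c < (conj u * p t).re then 2 else 0 := by
    intro t ht
    set X := (conj u * p t).re with hXd
    have hX1 : |X| ≤ 1 := (Complex.abs_re_le_norm _).trans (hX t ht).le
    rw [abs_le] at hX1
    have e : X ^ 2 + (1 - c) * X - c = (X - c) * (X + 1) := by ring
    rw [e]
    split_ifs with h
    · nlinarith [hX1.1, hX1.2]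
    · push Not at h
      exact mul_nonpos_of_nonpos_of_nonneg (by linarith) (by linarith [hX1.1])
  have hsum := Finset.sum_le_sum hf
  rw [← Finset.sum_filter, Finset.sum_const, nsmul_eq_mul, Finset.sum_sub_distrib,
    Finset.sum_add_distrib, ← Finset.mul_sum,
    Finset.sum_const, nsmul_eq_mul, Finset.sum_congr rfl (fun t ht => re_sq (hX t ht)),
    Finset.sum_add_distrib,
    Finset.sum_const, nsmul_eq_mul, ← Finset.sum_div] at hsum
  rw [abs_le] at s1 s2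
  have k2 : (1 - c) * ∑ t ∈ S, (conj u * p t).re ≥ - M1 := by
    have h5 : (1 - c) * ∑ t ∈ S, (conj u * p t).re ≥ (1 - c) * (-M1) :=
      mul_le_mul_of_nonneg_left s1.1 (by linarith)
    have hM1 : 0 ≤ M1 := by linarith [s1.1, s1.2]
    nlinarith
  linarith [s2.1]

end Pool.Agent.Q240.SIC.Mom
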