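import Mathlib
import Pool.Agent.Q240.SIC.Moments

/-!
# Hilbert function of the points of a maximal ETF
-/

set_option autoImplicit false

namespace Pool.Agent.Q240.SIC.Hilb

open scoped InnerProductSpace ComplexConjugate
open Finset

variable {d : ℕ}

/-- the linear form `v ↦ ⟨u, v⟩` -/
noncomputable def lin (u : EuclideanSpace ℂ (Fin d)) : MvPolynomial (Fin d) ℂ :=
  ∑ a, MvPolynomial.C (conj (u a)) * MvPolynomial.X a

theorem lin_hom (u : EuclideanSpace ℂ (Fin d)) : (lin u).IsHomogeneous 1 := by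
  unfold lin
  apply MvPolynomial.IsHomogeneous.sum
  intro a _
  have := (MvPolynomial.isHomogeneous_C (Fin d) (conj (u a))).mul
    (MvPolynomial.isHomogeneous_X ℂ a)
  simpa using this

theorem eval_lin (u v : EuclideanSpace ℂ (Fin d)) :
    MvPolynomial.eval (fun a => v a) (lin u) = ⟪u, v⟫_ℂ := by
  rw [Pool.Agent.H103R3.inner_eq_sum]
  simp [lin]

/-- evaluation at the points -/
noncomputable def ev (x : Fin (d ^ 2) → EuclideanSpace ℂ (Fin d)) :
    MvPolynomial (Fin d) ℂ →ₗ[ℂ] (Fin (d ^ 2) → ℂ) :=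
  LinearMap.pi fun i => (MvPolynomial.aeval (fun a => x i a)).toLinearMap

theorem ev_apply (x : Fin (d ^ 2) → EuclideanSpace ℂ (Fin d)) (f : MvPolynomial (Fin d) ℂ)
    (i : Fin (d ^ 2)) : ev x f i = MvPolynomial.eval (fun a => x i a) f := by
  change MvPolynomial.aeval (fun a => x i a) f = _
  exact DFunLike.congr_fun (MvPolynomial.coe_aeval_eq_eval (fun a => x i a)) f

/-- the matrix of the `m`-th powers -/
noncomputable def A (x : Fin (d ^ 2) → EuclideanSpace ℂ (Fin d)) (m : ℕ) :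
    Matrix (Fin (d ^ 2)) (Fin (d ^ 2)) ℂ :=
  Matrix.of fun i j => ⟪x i, x j⟫_ℂ ^ m

theorem range_le (x : Fin (d ^ 2) → EuclideanSpace ℂ (Fin d)) (m : ℕ) :
    LinearMap.range (Matrix.mulVecLin (A x m).transpose) ≤
      Submodule.map (ev x) (MvPolynomial.homogeneousSubmodule (Fin d) ℂ m) := by
  rintro _ ⟨a, rfl⟩
  refine ⟨∑ j, a j • (lin (x j)) ^ m, ?_, ?_⟩
  · apply Submodule.sum_mem
    intro j _
    apply Submodule.smul_mem
    have := (lin_hom (x j)).pow m
    rw [one_mul] at this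
    exact this
  · funext i
    rw [map_sum, Finset.sum_apply, Matrix.mulVecLin_apply, Matrix.mulVec, dotProduct]
    refine Finset.sum_congr rfl fun j _ => ?_
    rw [map_smul, Pi.smul_apply, ev_apply, map_pow, eval_lin, Matrix.transpose_apply, smul_eq_mul]
    simp only [A, Matrix.of_apply]
    ring

section sic

variable {x : Fin (d ^ 2) → EuclideanSpace ℂ (Fin d)} (h1 : ∀ i, ‖x i‖ = 1)
  (h2 : ∀ i j, i ≠ j → ‖⟪x i, x j⟫_ℂ‖ = 1 / Real.sqrt ((d : ℝ) + 1))

include h2 in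
theorem row_norm (m : ℕ) (i : Fin (d ^ 2)) :
    ∑ j, ‖Pool.Agent.Q240.SIC.Mom.B x m i j‖ ^ 2 =
      ((d : ℝ) ^ 2 - 1) * (1 / ((d : ℝ) + 1) ^ m) := by
  have e1 : ∀ j : Fin (d ^ 2), ‖Pool.Agent.Q240.SIC.Mom.B x m i j‖ ^ 2 =
      (1 / ((d : ℝ) + 1) ^ m) - if i = j then (1 / ((d : ℝ) + 1) ^ m) else 0 := by
    intro j
    simp only [Pool.Agent.Q240.SIC.Mom.B, Matrix.of_apply]
    by_cases h : i = j
    · simp [h]
    · rw [if_neg h, if_neg h, norm_pow, h2 i j h, sub_zero, ← pow_mul, mul_comm m 2, pow_mul,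
        div_pow, Real.sq_sqrt (by positivity), one_pow, div_pow, one_pow]
  rw [Finset.sum_congr rfl fun j _ => e1 j, Finset.sum_sub_distrib, Finset.sum_const,
    Finset.card_univ, Fintype.card_fin, Finset.sum_ite_eq, if_pos (mem_univ _), nsmul_eq_mul]
  push_cast
  ring

include h1 in
theorem A_eq (m : ℕ) : A x m = Pool.Agent.Q240.SIC.Mom.B x m + 1 := by
  rw [Pool.Agent.Q240.SIC.Mom.B_eq h1]
  unfold A
  abel

include h1 h2 in
/-- the kernel of `A` has dimension `k` with `k ≤ d² (d² - 1) / (d + 1)^m` -/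
theorem ker_bound (m : ℕ) :
    ((Module.finrank ℂ (LinearMap.ker (Matrix.toEuclideanLin (A x m))) : ℕ) : ℝ) ≤
      (d : ℝ) ^ 2 * (((d : ℝ) ^ 2 - 1) * (1 / ((d : ℝ) + 1) ^ m)) := by
  classical
  set K := LinearMap.ker (Matrix.toEuclideanLin (A x m)) with hK
  let b := stdOrthonormalBasis ℂ K
  set k := Module.finrank ℂ K with hk
  let u : Fin k → EuclideanSpace ℂ (Fin (d ^ 2)) := fun r => (b r : EuclideanSpace ℂ (Fin (d ^ 2)))
  have hu : Orthonormal ℂ u := by
    have := b.orthonormal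
    exact (Orthonormal.comp_linearIsometry this K.subtypeₗᵢ)
  let row : Fin (d ^ 2) → EuclideanSpace ℂ (Fin (d ^ 2)) := fun i =>
    WithLp.toLp 2 fun j => conj (Pool.Agent.Q240.SIC.Mom.B x m i j)
  have hrow : ∀ i r, ⟪row i, u r⟫_ℂ = - (u r) i := by
    intro i r
    have h3 : (Matrix.toEuclideanLin (A x m)) (u r) = 0 := (b r).2
    have h4 : ((Matrix.toEuclideanLin (A x m)) (u r)) i = 0 := by rw [h3]; rfl
    have h5 : ((Matrix.toEuclideanLin (A x m)) (u r)) i = ((A x m).mulVec (u r).ofLp) i := rfl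
    rw [h5, A_eq h1, Matrix.add_mulVec, Matrix.one_mulVec, Pi.add_apply] at h4
    rw [Pool.Agent.H103R3.inner_eq_sum]
    simp only [row, Complex.conj_conj]
    have h6 : ((Pool.Agent.Q240.SIC.Mom.B x m).mulVec (u r).ofLp) i =
      ∑ a, Pool.Agent.Q240.SIC.Mom.B x m i a * (u r).ofLp a := rfl
    rw [h6] at h4
    linear_combination h4
  have hb : ∀ i, ∑ r, ‖(u r) i‖ ^ 2 ≤ ((d : ℝ) ^ 2 - 1) * (1 / ((d : ℝ) + 1) ^ m) := by
    intro i
    have h3 := hu.sum_inner_products_le (s := univ) (row i)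
    have h4 : ∀ r, ‖⟪u r, row i⟫_ℂ‖ ^ 2 = ‖(u r) i‖ ^ 2 := by
      intro r
      rw [← inner_conj_symm, hrow, Complex.norm_conj, norm_neg]
    rw [Finset.sum_congr rfl fun r _ => h4 r] at h3
    refine h3.trans (le_of_eq ?_)
    rw [EuclideanSpace.norm_sq_eq, ← row_norm h2 m i]
    refine Finset.sum_congr rfl fun j _ => ?_
    simp [row]
  have hs : ∑ i, ∑ r, ‖(u r) i‖ ^ 2 = (k : ℝ) := by
    rw [Finset.sum_comm]
    have : ∀ r, ∑ i, ‖(u r) i‖ ^ 2 = 1 := by
      intro r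
      rw [← EuclideanSpace.norm_sq_eq, hu.1 r, one_pow]
    rw [Finset.sum_congr rfl fun r _ => this r]
    simp
  rw [← hs]
  refine (Finset.sum_le_sum fun i _ => hb i).trans (le_of_eq ?_)
  rw [Finset.sum_const, Finset.card_univ, Fintype.card_fin, nsmul_eq_mul]
  push_cast
  ring

include h1 h2 in
theorem hilb_lower (m : ℕ) (c : ℕ)
    (hc : (d : ℝ) ^ 2 * (((d : ℝ) ^ 2 - 1) * (1 / ((d : ℝ) + 1) ^ m)) < (c : ℝ) + 1) :
    d ^ 2 ≤ Module.finrank ℂ (Submodule.map (ev x)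
      (MvPolynomial.homogeneousSubmodule (Fin d) ℂ m)) + c := by
  have hk := ker_bound h1 h2 m
  have hkc : Module.finrank ℂ (LinearMap.ker (Matrix.toEuclideanLin (A x m))) ≤ c := by
    have : ((Module.finrank ℂ (LinearMap.ker (Matrix.toEuclideanLin (A x m))) : ℕ) : ℝ)
      < (c : ℝ) + 1 := lt_of_le_of_lt hk hc
    have h' : Module.finrank ℂ (LinearMap.ker (Matrix.toEuclideanLin (A x m))) < c + 1 := by
      exact_mod_cast this
    omega
  have hrn := LinearMap.finrank_range_add_finrank_ker (Matrix.toEuclideanLin (A x m))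
  rw [finrank_euclideanSpace_fin] at hrn
  have hrank : Module.finrank ℂ (LinearMap.range (Matrix.toEuclideanLin (A x m))) =
      (A x m).rank := (Matrix.rank_eq_finrank_range_toLin (A x m) (EuclideanSpace.basisFun _ ℂ).toBasis
        (EuclideanSpace.basisFun _ ℂ).toBasis).symm
  have hle : (A x m).rank ≤ Module.finrank ℂ (Submodule.map (ev x)
      (MvPolynomial.homogeneousSubmodule (Fin d) ℂ m)) := by
    rw [← Matrix.rank_transpose]
    exact Submodule.finrank_mono (range_le x m)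
  omega

end sic

end Pool.Agent.Q240.SIC.Hilb
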