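import Mathlib

/-!
# Smoothly weighted quadratic exponential sums
-/

set_option autoImplicit false

namespace Pool.Agent.Q240.SIC.Gauss

open scoped ComplexConjugate
open Finset

variable {p : ℕ} [Fact p.Prime]

theorem char_norm (a : ZMod p) : ‖(ZMod.stdAddChar a : ℂ)‖ = 1 := AddChar.norm_apply _ _

theorem conj_char (a : ZMod p) : conj (ZMod.stdAddChar a : ℂ) = ZMod.stdAddChar (-a) := by
  rw [← AddChar.map_neg_eq_conj]

theorem sum_char (b : ZMod p) :
    ∑ x : ZMod p, (ZMod.stdAddChar (x * b) : ℂ) = if b = 0 then (p : ℂ) else 0 := by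
  have h := AddChar.sum_mulShift b (ZMod.isPrimitive_stdAddChar p)
  rw [ZMod.card] at h
  rw [h]
  split_ifs <;> simp

/-- quadratic Gauss sums -/
noncomputable def gs (α t : ZMod p) : ℂ := ∑ x : ZMod p, ZMod.stdAddChar (α * x ^ 2 + t * x)

theorem gs_norm (hp : p ≠ 2) {α : ZMod p} (hα : α ≠ 0) (t : ZMod p) : ‖gs α t‖ ^ 2 = p := by
  have h20 : (2 : ZMod p) ≠ 0 := by
    intro h
    have h' : ((2 : ℕ) : ZMod p) = 0 := by exact_mod_cast h
    rw [ZMod.natCast_eq_zero_iff] at h'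
    exact hp ((Nat.prime_dvd_prime_iff_eq (Fact.out : p.Prime) Nat.prime_two).1 h')
  have h1 : gs α t * conj (gs α t) = (p : ℂ) := by
    unfold gs
    rw [map_sum, Finset.sum_mul_sum]
    have e1 : ∀ x : ZMod p, ∑ y : ZMod p, ZMod.stdAddChar (α * x ^ 2 + t * x) *
        conj (ZMod.stdAddChar (α * y ^ 2 + t * y) : ℂ) =
        ∑ h : ZMod p, ZMod.stdAddChar (α * h ^ 2 + t * h) *
          (ZMod.stdAddChar ((x - h) * (2 * α * h)) : ℂ) := by
      intro x
      rw [← Equiv.sum_comp (Equiv.subLeft x)]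
      refine Finset.sum_congr rfl fun h _ => ?_
      rw [conj_char, ← AddChar.map_add_eq_mul, ← AddChar.map_add_eq_mul]
      congr 1
      simp only [Equiv.subLeft_apply]
      ring
    rw [Finset.sum_congr rfl fun x _ => e1 x, Finset.sum_comm]
    have e2 : ∀ h : ZMod p, ∑ x : ZMod p, ZMod.stdAddChar (α * h ^ 2 + t * h) *
          (ZMod.stdAddChar ((x - h) * (2 * α * h)) : ℂ) =
          if h = 0 then (p : ℂ) else 0 := by
      intro h
      have e3 := Equiv.sum_comp (Equiv.subRight h)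
        (fun x : ZMod p => (ZMod.stdAddChar (x * (2 * α * h)) : ℂ))
      simp only [Equiv.subRight_apply] at e3
      rw [← Finset.mul_sum, e3, sum_char]
      by_cases hh : h = 0
      · simp [hh]
      · rw [if_neg (mul_ne_zero (mul_ne_zero h20 hα) hh), if_neg hh, mul_zero]
    rw [Finset.sum_congr rfl fun h _ => e2 h]
    simp
  rw [Complex.mul_conj, Complex.normSq_eq_norm_sq] at h1
  exact_mod_cast h1

theorem cast_inj {N : ℕ} (hN : N ≤ p) {a b : ℕ} (ha : a < N) (hb : b < N)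
    (h : (a : ZMod p) = (b : ZMod p)) : a = b := by
  rw [ZMod.natCast_eq_natCast_iff'] at h
  rwa [Nat.mod_eq_of_lt (lt_of_lt_of_le ha hN), Nat.mod_eq_of_lt (lt_of_lt_of_le hb hN)] at h

/-- Parseval -/
theorem parseval {N : ℕ} (hN : N ≤ p) (c : ℕ → ℂ) :
    ∑ t : ZMod p, ‖∑ n ∈ range N, c n * ZMod.stdAddChar (-(t * (n : ZMod p)))‖ ^ 2 =
      p * ∑ n ∈ range N, ‖c n‖ ^ 2 := by
  have h1 : ∑ t : ZMod p, (∑ n ∈ range N, c n * (ZMod.stdAddChar (-(t * (n : ZMod p))) : ℂ)) *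
      conj (∑ n ∈ range N, c n * (ZMod.stdAddChar (-(t * (n : ZMod p))) : ℂ)) =
      (p : ℂ) * ∑ n ∈ range N, c n * conj (c n) := by
    have e1 : ∀ t : ZMod p, (∑ n ∈ range N, c n * (ZMod.stdAddChar (-(t * (n : ZMod p))) : ℂ)) *
      conj (∑ n ∈ range N, c n * (ZMod.stdAddChar (-(t * (n : ZMod p))) : ℂ)) =
      ∑ n ∈ range N, ∑ m ∈ range N, (c n * conj (c m)) *
        (ZMod.stdAddChar (t * ((m : ZMod p) - (n : ZMod p))) : ℂ) := by
      intro t
      rw [map_sum, Finset.sum_mul_sum]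
      refine Finset.sum_congr rfl fun n _ => Finset.sum_congr rfl fun m _ => ?_
      rw [map_mul, conj_char, neg_neg]
      rw [show t * ((m : ZMod p) - (n : ZMod p)) = -(t * (n : ZMod p)) + t * m by ring,
        AddChar.map_add_eq_mul]
      ring
    rw [Finset.sum_congr rfl fun t _ => e1 t, Finset.sum_comm, Finset.mul_sum]
    refine Finset.sum_congr rfl fun n hn => ?_
    rw [Finset.sum_comm]
    simp_rw [← Finset.mul_sum, sum_char]
    rw [Finset.sum_eq_single n]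
    · rw [sub_self, if_pos rfl]; ring
    · intro m hm hmn
      rw [if_neg, mul_zero]
      intro h
      exact hmn (cast_inj hN (mem_range.1 hm) (mem_range.1 hn) (sub_eq_zero.1 h))
    · intro h
      exact absurd hn h
  simp_rw [Complex.mul_conj, Complex.normSq_eq_norm_sq] at h1
  have h2 : ((∑ t : ZMod p, ‖∑ n ∈ range N, c n * (ZMod.stdAddChar (-(t * (n : ZMod p))) : ℂ)‖ ^ 2 :
      ℝ) : ℂ) = ((p * ∑ n ∈ range N, ‖c n‖ ^ 2 : ℝ) : ℂ) := by
    push_cast at h1 ⊢
    exact h1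
  exact Complex.ofReal_injective h2

/-! ### The sum of the weights -/

theorem sum_inv (M : ℕ) : ∑ m ∈ range M, (1 : ℝ) / (1 + (m : ℝ) ^ 2) ≤ 3 := by
  have h : ∀ M : ℕ, ∑ m ∈ range (M + 1), (1 : ℝ) / (1 + (m : ℝ) ^ 2) ≤
      3 - 2 / ((M : ℝ) + 1) := by
    intro M
    induction M with
    | zero => norm_num
    | succ M ih =>
      rw [Finset.sum_range_succ]
      have h1 : (1 : ℝ) / (1 + ((M + 1 : ℕ) : ℝ) ^ 2) ≤ 2 / (M + 1) - 2 / (M + 1 + 1) := by
        have : (2 : ℝ) / (M + 1) - 2 / (M + 1 + 1) = 2 / ((M + 1) * (M + 1 + 1)) := by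
          field_simp
          ring
        rw [this, div_le_div_iff₀ (by positivity) (by positivity)]
        push_cast
        nlinarith [Nat.cast_nonneg (α := ℝ) M]
      push_cast at h1 ⊢
      linarith
  rcases Nat.eq_zero_or_pos M with rfl | hM
  · simp
  · obtain ⟨k, rfl⟩ : ∃ k, M = k + 1 := ⟨M - 1, by omega⟩
    have h1 := h k
    have h2 : (0 : ℝ) ≤ 2 / ((k : ℝ) + 1) := by positivity
    linarith

theorem norm_one_sub_exp (y : ℝ) :
    ‖1 - Complex.exp (2 * Real.pi * Complex.I * y)‖ ^ 2 = 4 * Real.sin (Real.pi * y) ^ 2 := by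
  have e : (2 * Real.pi * Complex.I * y : ℂ) = ((2 * (Real.pi * y) : ℝ) : ℂ) * Complex.I := by
    push_cast; ring
  rw [e, ← Complex.normSq_eq_norm_sq, Complex.normSq_apply, Complex.sub_re, Complex.sub_im,
    Complex.exp_ofReal_mul_I_re, Complex.exp_ofReal_mul_I_im, Complex.one_re, Complex.one_im]
  have h1 := Real.sin_sq_add_cos_sq (2 * (Real.pi * y))
  have h2 := Real.cos_two_mul (Real.pi * y)
  have h3 := Real.sin_sq_add_cos_sq (Real.pi * y)
  nlinarith

/-- `λ |1 - e(β - t/p)|²` summed -/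
theorem sum_weights (β : ℝ) :
    ∑ t : ZMod p, (1 : ℝ) / (1 + ((p : ℝ) ^ 2 / 16) *
      ‖1 - Complex.exp (2 * Real.pi * Complex.I * β) * (ZMod.stdAddChar (-t) : ℂ)‖ ^ 2) ≤ 8 := by
  have hp0 : 0 < p := (Fact.out : p.Prime).pos
  have hpr : (0 : ℝ) < p := by exact_mod_cast hp0
  set t0 : ℤ := ⌊β * p⌋ with ht0
  set φ : ℝ := β * p - t0 with hφ
  have hφ0 : 0 ≤ φ := by
    have := Int.floor_le (β * p)
    rw [hφ]; linarith
  have hφ1 : φ < 1 := by
    have := Int.lt_floor_add_one (β * p)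
    rw [hφ]; linarith
  set f : ZMod p → ℝ := fun t => (1 : ℝ) / (1 + ((p : ℝ) ^ 2 / 16) *
      ‖1 - Complex.exp (2 * Real.pi * Complex.I * β) * (ZMod.stdAddChar (-t) : ℂ)‖ ^ 2) with hf
  have e1 : ∑ t : ZMod p, f t = ∑ k ∈ range p, f ((t0 + k : ℤ) : ZMod p) := by
    rw [← Equiv.sum_comp (Equiv.addLeft (t0 : ZMod p)) f]
    refine Finset.sum_nbij' (fun t => t.val) (fun k => (k : ZMod p)) ?_ ?_ ?_ ?_ ?_
    · intro t _
      exact mem_range.2 (ZMod.val_lt t)
    · intro k _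
      exact mem_univ _
    · intro t _
      exact ZMod.natCast_zmod_val t
    · intro k hk
      exact ZMod.val_cast_of_lt (mem_range.1 hk)
    · intro t _
      simp only [Equiv.coe_addLeft]
      congr 1
      push_cast
      rw [ZMod.natCast_zmod_val]
  have e2 : ∀ k : ℕ, f ((t0 + k : ℤ) : ZMod p) = 1 / (1 + ((p : ℝ) ^ 2 / 16) *
      (4 * Real.sin (Real.pi * ((k - φ) / p)) ^ 2)) := by
    intro k
    simp only [hf]
    have e3 : Complex.exp (2 * Real.pi * Complex.I * β) *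
        (ZMod.stdAddChar (-((t0 + k : ℤ) : ZMod p)) : ℂ) =
        Complex.exp (2 * Real.pi * Complex.I * ((-((k - φ) / p) : ℝ) : ℂ)) := by
      rw [← Int.cast_neg, ZMod.stdAddChar_coe, ← Complex.exp_add]
      congr 1
      have hpc : (p : ℂ) ≠ 0 := by exact_mod_cast hp0.ne'
      rw [hφ]
      push_cast
      field_simp
      ring
    rw [e3, norm_one_sub_exp]
    congr 4
    rw [mul_neg, Real.sin_neg, neg_sq]
  have e4 : ∀ k ∈ range p, f ((t0 + k : ℤ) : ZMod p) ≤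
      (if k = 0 then 1 else 0) + (1 / (1 + (((k - 1 : ℕ) : ℝ)) ^ 2) +
        1 / (1 + (((p - 1 - k : ℕ) : ℝ)) ^ 2)) := by
    intro k hk
    have hkp := mem_range.1 hk
    rw [e2]
    rcases Nat.eq_zero_or_pos k with rfl | hk0
    · rw [if_pos rfl]
      have h1 : (1 : ℝ) / (1 + ((p : ℝ) ^ 2 / 16) *
        (4 * Real.sin (Real.pi * (((0 : ℕ) - φ) / p)) ^ 2)) ≤ 1 := by
        rw [div_le_one (by positivity)]
        have : (0 : ℝ) ≤ ((p : ℝ) ^ 2 / 16) *
          (4 * Real.sin (Real.pi * (((0 : ℕ) - φ) / p)) ^ 2) := by positivity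
        linarith
      have h2 : (0 : ℝ) ≤ 1 / (1 + (((0 - 1 : ℕ) : ℝ)) ^ 2) +
        1 / (1 + (((p - 1 - 0 : ℕ) : ℝ)) ^ 2) := by positivity
      linarith
    · rw [if_neg hk0.ne', zero_add]
      have hk1 : (1 : ℝ) ≤ k := by exact_mod_cast hk0
      have hkp' : (k : ℝ) + 1 ≤ p := by exact_mod_cast hkp
      have c1 : ((k - 1 : ℕ) : ℝ) = k - 1 := by
        rw [Nat.cast_sub hk0, Nat.cast_one]
      have c2 : ((p - 1 - k : ℕ) : ℝ) = p - 1 - k := by
        rw [Nat.cast_sub (by omega), Nat.cast_sub (by omega), Nat.cast_one]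
      rw [c1, c2]
      set y : ℝ := (k - φ) / p with hy
      have hpy : p * y = k - φ := by rw [hy]; field_simp
      have hy0 : 0 < y := by rw [hy]; apply div_pos (by linarith) hpr
      have hy1 : y < 1 := by rw [hy, div_lt_one hpr]; linarith
      rcases le_total y (1 / 2) with h | h
      · have hs : 2 * y ≤ Real.sin (Real.pi * y) := by
          have := Real.mul_le_sin (x := Real.pi * y) (by positivity) (by nlinarith [Real.pi_pos])
          have e : 2 / Real.pi * (Real.pi * y) = 2 * y := by field_simp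
          linarith
        have h1 : ((k : ℝ) - 1) ^ 2 ≤ ((p : ℝ) ^ 2 / 16) * (4 * Real.sin (Real.pi * y) ^ 2) := by
          have h2 : (2 * y) ^ 2 ≤ Real.sin (Real.pi * y) ^ 2 :=
            pow_le_pow_left₀ (by positivity) hs 2
          have h3 : ((k : ℝ) - 1) ^ 2 ≤ (p * y) ^ 2 := by
            rw [hpy]
            apply pow_le_pow_left₀ (by linarith) (by linarith)
          have h4 : (0 : ℝ) ≤ (p : ℝ) ^ 2 := by positivity
          nlinarith
        have h2 : 1 / (1 + ((p : ℝ) ^ 2 / 16) * (4 * Real.sin (Real.pi * y) ^ 2)) ≤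
            1 / (1 + ((k : ℝ) - 1) ^ 2) := by
          apply one_div_le_one_div_of_le (by positivity) (by linarith)
        have h3 : (0 : ℝ) ≤ 1 / (1 + ((p : ℝ) - 1 - k) ^ 2) := by positivity
        linarith
      · have hs : 2 * (1 - y) ≤ Real.sin (Real.pi * y) := by
          have := Real.mul_le_sin (x := Real.pi * (1 - y)) (by
            apply mul_nonneg Real.pi_pos.le; linarith) (by nlinarith [Real.pi_pos])
          have e : 2 / Real.pi * (Real.pi * (1 - y)) = 2 * (1 - y) := by field_simp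
          have e' : Real.sin (Real.pi * (1 - y)) = Real.sin (Real.pi * y) := by
            rw [mul_sub, mul_one, Real.sin_pi_sub]
          linarith
        have h1 : ((p : ℝ) - 1 - k) ^ 2 ≤ ((p : ℝ) ^ 2 / 16) *
            (4 * Real.sin (Real.pi * y) ^ 2) := by
          have h2 : (2 * (1 - y)) ^ 2 ≤ Real.sin (Real.pi * y) ^ 2 :=
            pow_le_pow_left₀ (by linarith) hs 2
          have h3 : ((p : ℝ) - 1 - k) ^ 2 ≤ (p * (1 - y)) ^ 2 := by
            rw [mul_sub, mul_one, hpy]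
            apply pow_le_pow_left₀ (by linarith) (by linarith)
          have h4 : (0 : ℝ) ≤ (p : ℝ) ^ 2 := by positivity
          nlinarith
        have h2 : 1 / (1 + ((p : ℝ) ^ 2 / 16) * (4 * Real.sin (Real.pi * y) ^ 2)) ≤
            1 / (1 + ((p : ℝ) - 1 - k) ^ 2) := by
          apply one_div_le_one_div_of_le (by positivity) (by linarith)
        have h3 : (0 : ℝ) ≤ 1 / (1 + ((k : ℝ) - 1) ^ 2) := by positivity
        linarith
  rw [e1]
  refine (Finset.sum_le_sum e4).trans ?_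
  rw [Finset.sum_add_distrib, Finset.sum_add_distrib]
  have s1 : ∑ k ∈ range p, (if k = 0 then (1 : ℝ) else 0) = 1 := by
    rw [Finset.sum_ite_eq', if_pos (mem_range.2 hp0)]
  have s3 : ∑ k ∈ range p, (1 : ℝ) / (1 + (((p - 1 - k : ℕ) : ℝ)) ^ 2) ≤ 3 := by
    rw [Finset.sum_range_reflect (fun m => (1 : ℝ) / (1 + (m : ℝ) ^ 2))]
    exact sum_inv p
  have s2 : ∑ k ∈ range p, (1 : ℝ) / (1 + (((k - 1 : ℕ) : ℝ)) ^ 2) ≤ 4 := by
    obtain ⟨q, hq⟩ : ∃ q, p = q + 1 := ⟨p - 1, by omega⟩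
    rw [hq, Finset.sum_range_succ']
    simp only [Nat.add_sub_cancel]
    have := sum_inv q
    norm_num
    simp only [one_div] at this
    linarith
  linarith

/-- A quadratic exponential sum with a smooth weight `w`, supported in `[0, N)`. -/
theorem smooth_bound (hp : p ≠ 2) {α : ZMod p} (hα : α ≠ 0) (β : ℝ) (N : ℕ) (hN : N + 1 ≤ p)
    (w : ℕ → ℂ) (hwN : w N = 0) :
    ‖∑ n ∈ range N, w n * Complex.exp (2 * Real.pi * Complex.I * β) ^ n *
      ZMod.stdAddChar (α * (n : ZMod p) ^ 2)‖ ^ 2 ≤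
    8 * (∑ n ∈ range N, ‖w n‖ ^ 2 + ((p : ℝ) ^ 2 / 16) *
      (‖w 0‖ ^ 2 + ∑ n ∈ range N, ‖w (n + 1) - w n‖ ^ 2)) := by
  have hp0 : 0 < p := (Fact.out : p.Prime).pos
  have hpr : (0 : ℝ) < p := by exact_mod_cast hp0
  have hpc : (p : ℂ) ≠ 0 := by exact_mod_cast hp0.ne'
  set b : ℂ := Complex.exp (2 * Real.pi * Complex.I * β) with hb
  have hb1 : ‖b‖ = 1 := by
    rw [hb, show (2 * Real.pi * Complex.I * β : ℂ) = ((2 * Real.pi * β : ℝ) : ℂ) * Complex.I by
      push_cast; ring, Complex.norm_exp_ofReal_mul_I]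
  let D : ZMod p → ℂ := fun t => ∑ n ∈ range N, w n * b ^ n * ZMod.stdAddChar (-(t * (n : ZMod p)))
  set S := ∑ n ∈ range N, w n * b ^ n * ZMod.stdAddChar (α * (n : ZMod p) ^ 2) with hS
  -- inversion
  have inv : (p : ℂ) * S = ∑ t : ZMod p, D t * gs α t := by
    have e1 : ∀ t : ZMod p, D t * gs α t = ∑ n ∈ range N, ∑ x : ZMod p,
        (w n * b ^ n * ZMod.stdAddChar (α * x ^ 2)) *
          (ZMod.stdAddChar (t * (x - (n : ZMod p))) : ℂ) := by
      intro t
      simp only [D, gs]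
      rw [Finset.sum_mul]
      refine Finset.sum_congr rfl fun n _ => ?_
      rw [Finset.mul_sum]
      refine Finset.sum_congr rfl fun x _ => ?_
      rw [AddChar.map_add_eq_mul, show t * (x - (n : ZMod p)) = -(t * (n : ZMod p)) + t * x by ring,
        AddChar.map_add_eq_mul]
      ring
    rw [Finset.sum_congr rfl fun t _ => e1 t, Finset.sum_comm, hS, Finset.mul_sum]
    refine Finset.sum_congr rfl fun n _ => ?_
    rw [Finset.sum_comm]
    simp_rw [← Finset.mul_sum, sum_char]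
    rw [Finset.sum_eq_single (n : ZMod p)]
    · rw [sub_self, if_pos rfl]; ring
    · intro x _ hx
      rw [if_neg (sub_ne_zero.2 hx), mul_zero]
    · intro h
      exact absurd (mem_univ _) h
  -- the weights
  let s : ZMod p → ℝ := fun t => 1 + ((p : ℝ) ^ 2 / 16) *
      ‖1 - b * (ZMod.stdAddChar (-t) : ℂ)‖ ^ 2
  have hs : ∀ t, 0 < s t := fun t => by positivity
  have hsum : ∑ t : ZMod p, 1 / s t ≤ 8 := sum_weights β
  have hpw : ∀ (t : ZMod p) (n : ℕ), (b * (ZMod.stdAddChar (-t) : ℂ)) ^ n =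
      b ^ n * (ZMod.stdAddChar (-(t * (n : ZMod p))) : ℂ) := by
    intro t n
    rw [mul_pow, ← AddChar.map_nsmul_eq_pow]
    congr 2
    rw [nsmul_eq_mul]
    ring
  have hD : ∀ t, D t = ∑ n ∈ range N, w n * (b * (ZMod.stdAddChar (-t) : ℂ)) ^ n := by
    intro t
    refine Finset.sum_congr rfl fun n _ => ?_
    rw [hpw]; ring
  -- first differences
  let dw : ℕ → ℂ := fun n => if n = 0 then w 0 else w n - w (n - 1)
  have hdiff : ∀ t, (1 - b * (ZMod.stdAddChar (-t) : ℂ)) * D t =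
      ∑ n ∈ range (N + 1), (dw n * b ^ n) * (ZMod.stdAddChar (-(t * (n : ZMod p))) : ℂ) := by
    intro t
    set z := b * (ZMod.stdAddChar (-t) : ℂ) with hz
    have e1 : ∑ n ∈ range (N + 1), (dw n * b ^ n) * (ZMod.stdAddChar (-(t * (n : ZMod p))) : ℂ) =
        ∑ n ∈ range (N + 1), dw n * z ^ n := by
      refine Finset.sum_congr rfl fun n _ => ?_
      rw [hpw]; ring
    rw [e1, hD, Finset.sum_range_succ']
    simp only [dw, Nat.add_sub_cancel, if_pos rfl, Nat.succ_ne_zero, if_false, pow_zero, mul_one]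
    have e2 : ∑ n ∈ range N, (w (n + 1) - w n) * z ^ (n + 1) =
        (∑ n ∈ range N, w (n + 1) * z ^ (n + 1)) - z * ∑ n ∈ range N, w n * z ^ n := by
      rw [Finset.mul_sum, ← Finset.sum_sub_distrib]
      refine Finset.sum_congr rfl fun n _ => ?_
      ring
    have e3 : ∑ n ∈ range N, w (n + 1) * z ^ (n + 1) + w 0 = ∑ n ∈ range N, w n * z ^ n := by
      have h1 := Finset.sum_range_succ' (fun n => w n * z ^ n) N
      have h2 := Finset.sum_range_succ (fun n => w n * z ^ n) N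
      rw [h1, hwN] at h2
      simpa using h2
    rw [e2]
    linear_combination -e3
  have P0 : ∑ t : ZMod p, ‖D t‖ ^ 2 = p * ∑ n ∈ range N, ‖w n‖ ^ 2 := by
    have := parseval (p := p) (N := N) (by omega) (fun n => w n * b ^ n)
    rw [this]
    congr 1
    refine Finset.sum_congr rfl fun n _ => ?_
    rw [norm_mul, norm_pow, hb1, one_pow, mul_one]
  have P1 : ∑ t : ZMod p, ‖(1 - b * (ZMod.stdAddChar (-t) : ℂ)) * D t‖ ^ 2 =
      p * (‖w 0‖ ^ 2 + ∑ n ∈ range N, ‖w (n + 1) - w n‖ ^ 2) := by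
    rw [Finset.sum_congr rfl fun t _ => by rw [hdiff t], parseval (p := p) (N := N + 1) hN,
      Finset.sum_range_succ']
    congr 1
    rw [add_comm]
    congr 1
    · simp [dw]
    · refine Finset.sum_congr rfl fun n _ => ?_
      rw [norm_mul, norm_pow, hb1, one_pow, mul_one]
      simp [dw]
  have P : ∑ t : ZMod p, s t * ‖D t‖ ^ 2 = p * (∑ n ∈ range N, ‖w n‖ ^ 2 + ((p : ℝ) ^ 2 / 16) *
      (‖w 0‖ ^ 2 + ∑ n ∈ range N, ‖w (n + 1) - w n‖ ^ 2)) := by
    have e1 : ∀ t : ZMod p, s t * ‖D t‖ ^ 2 = ‖D t‖ ^ 2 + ((p : ℝ) ^ 2 / 16) *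
        ‖(1 - b * (ZMod.stdAddChar (-t) : ℂ)) * D t‖ ^ 2 := by
      intro t
      rw [norm_mul, mul_pow]
      simp only [s]
      ring
    rw [Finset.sum_congr rfl fun t _ => e1 t, Finset.sum_add_distrib, ← Finset.mul_sum, P0, P1]
    ring
  set Q : ℝ := ∑ n ∈ range N, ‖w n‖ ^ 2 + ((p : ℝ) ^ 2 / 16) *
      (‖w 0‖ ^ 2 + ∑ n ∈ range N, ‖w (n + 1) - w n‖ ^ 2) with hQ
  -- Cauchy-Schwarz
  have CS : (∑ t : ZMod p, ‖D t‖) ^ 2 ≤ 8 * (p * Q) := by
    have h1 := Finset.sum_mul_sq_le_sq_mul_sq univ (fun t : ZMod p => Real.sqrt (1 / s t))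
      (fun t => Real.sqrt (s t) * ‖D t‖)
    have e1 : ∀ t : ZMod p, Real.sqrt (1 / s t) * (Real.sqrt (s t) * ‖D t‖) = ‖D t‖ := by
      intro t
      rw [← mul_assoc, ← Real.sqrt_mul (by have := hs t; positivity), one_div,
        inv_mul_cancel₀ (hs t).ne', Real.sqrt_one, one_mul]
    have e2 : ∀ t : ZMod p, Real.sqrt (1 / s t) ^ 2 = 1 / s t := fun t =>
      Real.sq_sqrt (by have := hs t; positivity)
    have e3 : ∀ t : ZMod p, (Real.sqrt (s t) * ‖D t‖) ^ 2 = s t * ‖D t‖ ^ 2 := fun t => by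
      rw [mul_pow, Real.sq_sqrt (hs t).le]
    rw [Finset.sum_congr rfl fun t _ => e1 t, Finset.sum_congr rfl fun t _ => e2 t,
      Finset.sum_congr rfl fun t _ => e3 t, P] at h1
    refine h1.trans ?_
    apply mul_le_mul_of_nonneg_right hsum
    rw [← P]
    apply Finset.sum_nonneg
    intro t _
    have := hs t
    positivity
  have hnorm : p * ‖S‖ ≤ Real.sqrt p * ∑ t : ZMod p, ‖D t‖ := by
    have h1 : ‖(p : ℂ) * S‖ ≤ ∑ t : ZMod p, ‖D t * gs α t‖ := by
      rw [inv]; exact norm_sum_le _ _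
    rw [norm_mul, Complex.norm_natCast] at h1
    refine h1.trans (le_of_eq ?_)
    rw [Finset.mul_sum]
    refine Finset.sum_congr rfl fun t _ => ?_
    rw [norm_mul]
    have : ‖gs α t‖ = Real.sqrt p := by
      rw [← gs_norm hp hα t, Real.sqrt_sq (norm_nonneg _)]
    rw [this]
    ring
  have h2 : (p * ‖S‖) ^ 2 ≤ (Real.sqrt p * ∑ t : ZMod p, ‖D t‖) ^ 2 :=
    pow_le_pow_left₀ (by positivity) hnorm 2
  rw [mul_pow, mul_pow, Real.sq_sqrt hpr.le] at h2
  have h3 : (p : ℝ) ^ 2 * ‖S‖ ^ 2 ≤ (p : ℝ) ^ 2 * (8 * Q) := by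
    calc (p : ℝ) ^ 2 * ‖S‖ ^ 2 ≤ p * (∑ t : ZMod p, ‖D t‖) ^ 2 := h2
      _ ≤ p * (8 * (p * Q)) := mul_le_mul_of_nonneg_left CS hpr.le
      _ = _ := by ring
  exact le_of_mul_le_mul_left h3 (by positivity)

end Pool.Agent.Q240.SIC.Gauss
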