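import Mathlib
import Pool.Agent.H103R3.FrameCrit

/-!
# Weighted complex projective 2-designs
-/

set_option autoImplicit false

namespace Pool.Agent.Q240.SIC

open scoped InnerProductSpace ComplexConjugate
open Finset

variable {d : ℕ}

/-- A weighted complex projective 2-design. -/
def IsWD (d : ℕ) {κ : Type} [Fintype κ] (x : κ → EuclideanSpace ℂ (Fin d)) (w : κ → ℝ) : Prop :=
  (∀ i, ‖x i‖ = 1) ∧ (∀ i, 0 < w i) ∧
  ∀ a b c f : Fin d,
    ∑ i, (w i : ℂ) * (x i a * conj (x i b) * (x i c * conj (x i f))) =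
      (if a = b ∧ c = f then 1 else 0) + (if a = f ∧ c = b then 1 else 0)

theorem four (e u v w z : EuclideanSpace ℂ (Fin d)) :
    (⟪u, e⟫_ℂ * ⟪e, v⟫_ℂ) * (⟪w, e⟫_ℂ * ⟪e, z⟫_ℂ) =
      ∑ a, ∑ c, ∑ b, ∑ f, (conj (u a) * v b * (conj (w c) * z f)) *
        (e a * conj (e b) * (e c * conj (e f))) := by
  rw [Pool.Agent.H103R3.inner_eq_sum, Pool.Agent.H103R3.inner_eq_sum,
    Pool.Agent.H103R3.inner_eq_sum, Pool.Agent.H103R3.inner_eq_sum,
    Finset.sum_mul_sum, Finset.sum_mul_sum, Finset.sum_mul_sum]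
  refine Finset.sum_congr rfl fun a _ => Finset.sum_congr rfl fun c _ => ?_
  rw [Finset.sum_mul_sum]
  refine Finset.sum_congr rfl fun b _ => Finset.sum_congr rfl fun f _ => ?_
  ring

theorem four_sum {κ : Type} [Fintype κ] (x : κ → EuclideanSpace ℂ (Fin d)) (w : κ → ℂ)
    (h : ∀ a b c f : Fin d,
    ∑ i, w i * (x i a * conj (x i b) * (x i c * conj (x i f))) =
      (if a = b ∧ c = f then 1 else 0) + (if a = f ∧ c = b then 1 else 0))
    (u v p z : EuclideanSpace ℂ (Fin d)) :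
    ∑ i, w i * ((⟪u, x i⟫_ℂ * ⟪x i, v⟫_ℂ) * (⟪p, x i⟫_ℂ * ⟪x i, z⟫_ℂ)) =
      ⟪u, z⟫_ℂ * ⟪p, v⟫_ℂ + ⟪u, v⟫_ℂ * ⟪p, z⟫_ℂ := by
  simp_rw [four, Finset.mul_sum]
  rw [Finset.sum_comm]
  have e1 : ∀ a : Fin d, ∑ i, ∑ c, ∑ b, ∑ f, w i * ((conj (u a) * v b * (conj (p c) * z f)) *
        (x i a * conj (x i b) * (x i c * conj (x i f)))) =
      ∑ c, ∑ b, ∑ f, (conj (u a) * v b * (conj (p c) * z f)) *
        ((if a = b ∧ c = f then 1 else 0) + (if a = f ∧ c = b then 1 else 0)) := by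
    intro a
    rw [Finset.sum_comm]
    refine Finset.sum_congr rfl fun c _ => ?_
    rw [Finset.sum_comm]
    refine Finset.sum_congr rfl fun b _ => ?_
    rw [Finset.sum_comm]
    refine Finset.sum_congr rfl fun f _ => ?_
    rw [← h a b c f, Finset.mul_sum]
    refine Finset.sum_congr rfl fun i _ => ?_
    ring
  rw [Finset.sum_congr rfl fun a _ => e1 a]
  simp_rw [mul_add, Finset.sum_add_distrib]
  rw [add_comm]
  congr 1
  · rw [Pool.Agent.H103R3.inner_eq_sum, Pool.Agent.H103R3.inner_eq_sum, Finset.sum_mul_sum]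
    refine Finset.sum_congr rfl fun a _ => Finset.sum_congr rfl fun c _ => ?_
    rw [Finset.sum_eq_single c, Finset.sum_eq_single a]
    · simp; ring
    · intro f _ hf
      rw [if_neg (fun h => hf h.1.symm), mul_zero]
    · simp
    · intro b _ hb
      apply Finset.sum_eq_zero
      intro f _
      rw [if_neg (fun h => hb h.2.symm), mul_zero]
    · simp
  · rw [Pool.Agent.H103R3.inner_eq_sum, Pool.Agent.H103R3.inner_eq_sum, Finset.sum_mul_sum]
    refine Finset.sum_congr rfl fun a _ => Finset.sum_congr rfl fun c _ => ?_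
    rw [Finset.sum_eq_single a, Finset.sum_eq_single c]
    · simp
    · intro f _ hf
      rw [if_neg (fun h => hf h.2.symm), mul_zero]
    · simp
    · intro b _ hb
      apply Finset.sum_eq_zero
      intro f _
      rw [if_neg (fun h => hb h.1.symm), mul_zero]
    · simp

/-- the scaled vectors -/
noncomputable def sc {κ : Type} (x : κ → EuclideanSpace ℂ (Fin d)) (w : κ → ℝ) (i : κ) :
    EuclideanSpace ℂ (Fin d) :=
  ((Real.sqrt (Real.sqrt (w i * (d / (d + 1)))) : ℝ) : ℂ) • x i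

theorem sc_design {κ : Type} [Fintype κ] {x : κ → EuclideanSpace ℂ (Fin d)}
    {w : κ → ℝ} (h : IsWD d x w) (u v p z : EuclideanSpace ℂ (Fin d)) :
    ∑ k, (⟪u, sc x w k⟫_ℂ * ⟪sc x w k, v⟫_ℂ) * (⟪p, sc x w k⟫_ℂ * ⟪sc x w k, z⟫_ℂ) =
        ((d : ℂ) / (d + 1)) * (⟪u, z⟫_ℂ * ⟪p, v⟫_ℂ + ⟪u, v⟫_ℂ * ⟪p, z⟫_ℂ) := by
  rw [← four_sum x (fun i => (w i : ℂ)) h.2.2 u v p z, Finset.mul_sum]
  refine Finset.sum_congr rfl fun i _ => ?_
  have hw := h.2.1 i
  have h0 : 0 ≤ w i * ((d : ℝ) / (d + 1)) := by positivity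
  set r := Real.sqrt (Real.sqrt (w i * (d / (d + 1)))) with hr
  have hr4 : r ^ 4 = w i * (d / (d + 1)) := by
    rw [show r ^ 4 = (r ^ 2) ^ 2 by ring, hr, Real.sq_sqrt (Real.sqrt_nonneg _), Real.sq_sqrt h0]
  have hr4' : (r : ℂ) ^ 4 = (w i : ℂ) * ((d : ℂ) / (d + 1)) := by
    rw [← Complex.ofReal_pow, hr4]
    push_cast
    rfl
  unfold sc
  rw [← hr]
  simp only [inner_smul_left, inner_smul_right, Complex.conj_ofReal]
  linear_combination (⟪u, x i⟫_ℂ * ⟪x i, v⟫_ℂ * (⟪p, x i⟫_ℂ * ⟪x i, z⟫_ℂ)) * hr4'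

/-- at least `d²` points -/
theorem card_ge (hd : 0 < d) {N : ℕ} {x : Fin N → EuclideanSpace ℂ (Fin d)}
    {w : Fin N → ℝ} (h : IsWD d x w) : d ^ 2 ≤ N := by
  by_contra hlt
  push Not at hlt
  obtain ⟨m, hm⟩ : ∃ m, d ^ 2 = N + (m + 1) := ⟨d ^ 2 - N - 1, by omega⟩
  let e : Fin N ⊕ Fin (m + 1) → EuclideanSpace ℂ (Fin d) := Sum.elim (sc x w) 0
  have h1 := Pool.Agent.H103R3.design_sic hd (κ := Fin N ⊕ Fin (m + 1)) (by simp [hm]) e (by
    intro u v p z
    rw [Fintype.sum_sum_type]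
    simp only [e, Sum.elim_inl, Sum.elim_inr, Pi.zero_apply, inner_zero_left, inner_zero_right,
      mul_zero, Finset.sum_const_zero, add_zero]
    exact sc_design h u v p z)
  have h2 := h1.1 (Sum.inr 0)
  simp [e] at h2

theorem sic_of_design (hd : 0 < d) {x : Fin (d ^ 2) → EuclideanSpace ℂ (Fin d)}
    {w : Fin (d ^ 2) → ℝ} (h : IsWD d x w) :
    ∀ i j, i ≠ j → ‖⟪x i, x j⟫_ℂ‖ = 1 / Real.sqrt ((d : ℝ) + 1) := by
  have h1 := Pool.Agent.H103R3.design_sic hd (κ := Fin (d ^ 2)) (by simp) (sc x w)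
    (sc_design h)
  have hr : ∀ i, Real.sqrt (Real.sqrt (w i * (d / (d + 1)))) = 1 := by
    intro i
    have h2 := h1.1 i
    unfold sc at h2
    rw [norm_smul, h.1 i, mul_one, Complex.norm_real, Real.norm_of_nonneg (Real.sqrt_nonneg _)] at h2
    exact h2
  have hsc : sc x w = x := by
    funext i
    unfold sc
    rw [hr i, Complex.ofReal_one, one_smul]
  rw [hsc] at h1
  exact h1.2

theorem ite_aux (a b c f : Fin d) : (conj (if b = a then (1 : ℂ) else 0)) *
    conj (if f = c then (1 : ℂ) else 0) = if a = b ∧ c = f then 1 else 0 := by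
  by_cases h1 : a = b
  · subst h1
    by_cases h2 : c = f
    · subst h2; simp
    · have h2' : ¬ f = c := fun h => h2 h.symm
      simp [h2, h2']
  · have h1' : ¬ b = a := fun h => h1 h.symm
    simp [h1, h1']

theorem design_of_sic (hd : 0 < d) {x : Fin (d ^ 2) → EuclideanSpace ℂ (Fin d)}
    (h1 : ∀ i, ‖x i‖ = 1)
    (h2 : ∀ i j, i ≠ j → ‖⟪x i, x j⟫_ℂ‖ = 1 / Real.sqrt ((d : ℝ) + 1)) :
    IsWD d x (fun _ => ((d : ℝ) + 1) / d) := by
  have hd0 : (d : ℂ) ≠ 0 := by exact_mod_cast hd.ne'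
  have hd1 : (d : ℂ) + 1 ≠ 0 := by exact_mod_cast Nat.succ_ne_zero d
  refine ⟨h1, fun _ => by positivity, fun a b c f => ?_⟩
  have h := Pool.Agent.H103R3.FrameCrit.sic_design hd (κ := Fin (d ^ 2)) (by simp) x h1 h2
    (EuclideanSpace.single a 1) (EuclideanSpace.single b 1)
    (EuclideanSpace.single c 1) (EuclideanSpace.single f 1)
  simp only [EuclideanSpace.inner_single_left, EuclideanSpace.inner_single_right, map_one,
      one_mul] at h
  rw [← Finset.mul_sum, h]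
  push_cast
  rw [← mul_assoc, show ((d : ℂ) + 1) / d * (d / (d + 1)) = 1 by field_simp, one_mul]
  simp only [PiLp.single_apply]
  rw [add_comm]
  rw [ite_aux a b c f, ite_aux a f c b]

/-! ### Chirps -/

section chirp

variable (p : ℕ) [Fact p.Prime]

/-- the quadratic phase vectors, indexed by `(s, t)`, and the standard basis -/
noncomputable def vec (d : ℕ) : (ZMod p × ZMod p) ⊕ Fin d → EuclideanSpace ℂ (Fin d)
  | Sum.inl q => (WithLp.toLp 2 fun j : Fin d => (((Real.sqrt d)⁻¹ : ℝ) : ℂ) *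
      ZMod.stdAddChar (q.1 * ((j : ℕ) : ZMod p) ^ 2 + q.2 * ((j : ℕ) : ZMod p)))
  | Sum.inr k => EuclideanSpace.single k 1

/-- the weights -/
noncomputable def wt (d : ℕ) : (ZMod p × ZMod p) ⊕ Fin d → ℝ
  | Sum.inl _ => ((d : ℝ) / p) ^ 2
  | Sum.inr _ => 1

variable {p}

theorem char_norm (a : ZMod p) : ‖ZMod.stdAddChar a‖ = 1 := AddChar.norm_apply _ _

theorem char_mul_conj (a b : ZMod p) :
    ZMod.stdAddChar a * conj (ZMod.stdAddChar b) = ZMod.stdAddChar (a - b) := by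
  rw [← AddChar.map_neg_eq_conj, ← AddChar.map_add_eq_mul, sub_eq_add_neg]

theorem cast_inj {d : ℕ} (hdp : d ≤ p) {a b : Fin d}
    (h : ((a : ℕ) : ZMod p) = ((b : ℕ) : ZMod p)) : a = b := by
  rw [ZMod.natCast_eq_natCast_iff'] at h
  rw [Nat.mod_eq_of_lt (lt_of_lt_of_le a.2 hdp), Nat.mod_eq_of_lt (lt_of_lt_of_le b.2 hdp)] at h
  exact Fin.ext h

theorem sum_two (A B : ZMod p) :
    ∑ q : ZMod p × ZMod p, (ZMod.stdAddChar (q.1 * A + q.2 * B) : ℂ) =
      if A = 0 ∧ B = 0 then (p : ℂ) ^ 2 else 0 := by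
  rw [Fintype.sum_prod_type]
  simp_rw [AddChar.map_add_eq_mul]
  rw [← Finset.sum_mul_sum]
  have h := fun b : ZMod p => AddChar.sum_mulShift b (ZMod.isPrimitive_stdAddChar p)
  rw [h A, h B, ZMod.card]
  by_cases hA : A = 0 <;> by_cases hB : B = 0 <;> simp [hA, hB, sq]

theorem key_comb (hp2 : p ≠ 2) {d : ℕ} (hdp : d ≤ p) (a b c f : Fin d) :
    ((((a : ℕ) : ZMod p) ^ 2 - ((b : ℕ) : ZMod p) ^ 2 + (((c : ℕ) : ZMod p) ^ 2 -
      ((f : ℕ) : ZMod p) ^ 2) = 0) ∧
      (((a : ℕ) : ZMod p) - ((b : ℕ) : ZMod p) + (((c : ℕ) : ZMod p) -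
      ((f : ℕ) : ZMod p)) = 0)) ↔ ((a = b ∧ c = f) ∨ (a = f ∧ c = b)) := by
  constructor
  · rintro ⟨h1, h2⟩
    set A := ((a : ℕ) : ZMod p)
    set B := ((b : ℕ) : ZMod p)
    set C := ((c : ℕ) : ZMod p)
    set F := ((f : ℕ) : ZMod p)
    have h3 : (A - B) * ((A - F) * 2) = 0 := by
      have e : C = B + F - A := by linear_combination h2
      rw [e] at h1
      linear_combination h1
    have h20 : (2 : ZMod p) ≠ 0 := by
      intro h
      have h' : ((2 : ℕ) : ZMod p) = 0 := by exact_mod_cast h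
      rw [ZMod.natCast_eq_zero_iff] at h'
      exact hp2 ((Nat.prime_dvd_prime_iff_eq (Fact.out : p.Prime) Nat.prime_two).1 h')
    rcases mul_eq_zero.1 h3 with h | h
    · left
      have hab : A = B := sub_eq_zero.1 h
      exact ⟨cast_inj hdp hab, cast_inj hdp (by
        change C = F
        linear_combination h2 - hab)⟩
    · right
      rcases mul_eq_zero.1 h with h | h
      · have haf : A = F := sub_eq_zero.1 h
        exact ⟨cast_inj hdp haf, cast_inj hdp (by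
          change C = B
          linear_combination h2 - haf)⟩
      · exact absurd h h20
  · rintro (⟨rfl, rfl⟩ | ⟨rfl, rfl⟩)
    · constructor <;> ring
    · constructor <;> ring

theorem chirp_design (hp2 : p ≠ 2) {d : ℕ} (hd : 0 < d) (hdp : d ≤ p) :
    IsWD d (vec p d) (wt p d) := by
  have hp0 : 0 < p := (Fact.out : p.Prime).pos
  have hd0 : (0 : ℝ) < d := by exact_mod_cast hd
  have hpr : (0 : ℝ) < p := by exact_mod_cast hp0
  have hpc : (p : ℂ) ≠ 0 := by exact_mod_cast hp0.ne'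
  have hdc : (d : ℂ) ≠ 0 := by exact_mod_cast hd.ne'
  refine ⟨?_, ?_, ?_⟩
  · rintro (q | k)
    · rw [EuclideanSpace.norm_eq]
      have : ∀ j : Fin d, ‖vec p d (Sum.inl q) j‖ ^ 2 = (d : ℝ)⁻¹ := by
        intro j
        simp only [vec]
        rw [norm_mul, char_norm, mul_one, Complex.norm_real, Real.norm_of_nonneg (by positivity),
          inv_pow, Real.sq_sqrt hd0.le]
      rw [Finset.sum_congr rfl fun j _ => this j, Finset.sum_const, Finset.card_univ,
        Fintype.card_fin, nsmul_eq_mul, mul_inv_cancel₀ hd0.ne', Real.sqrt_one]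
    · simp [vec]
  · rintro (q | k)
    · simp only [wt]; positivity
    · simp [wt]
  · intro a b c f
    rw [Fintype.sum_sum_type]
    have h1 : ∀ q : ZMod p × ZMod p,
        (wt p d (Sum.inl q) : ℂ) * (vec p d (Sum.inl q) a * conj (vec p d (Sum.inl q) b) *
          (vec p d (Sum.inl q) c * conj (vec p d (Sum.inl q) f))) =
        ((p : ℂ) ^ 2)⁻¹ * ZMod.stdAddChar (q.1 * (((a : ℕ) : ZMod p) ^ 2 - ((b : ℕ) : ZMod p) ^ 2 +
          (((c : ℕ) : ZMod p) ^ 2 - ((f : ℕ) : ZMod p) ^ 2)) +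
          q.2 * (((a : ℕ) : ZMod p) - ((b : ℕ) : ZMod p) + (((c : ℕ) : ZMod p) -
          ((f : ℕ) : ZMod p)))) := by
      intro q
      simp only [wt, vec, map_mul, Complex.conj_ofReal]
      have hs : (((Real.sqrt d)⁻¹ : ℝ) : ℂ) ^ 4 = ((d : ℂ) ^ 2)⁻¹ := by
        rw [← Complex.ofReal_pow, show ((Real.sqrt d)⁻¹ : ℝ) ^ 4 = (((Real.sqrt d)) ^ 2)⁻¹ ^ 2 by
          rw [inv_pow, inv_pow]; ring, Real.sq_sqrt hd0.le]
        push_cast
        rw [inv_pow]
      have e1 : ∀ (r A B C F : ℂ), r * A * (r * B) * (r * C * (r * F)) =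
          r ^ 4 * ((A * B) * (C * F)) := by intros; ring
      have e2 : ((((d : ℝ) / p) ^ 2 : ℝ) : ℂ) * ((d : ℂ) ^ 2)⁻¹ = ((p : ℂ) ^ 2)⁻¹ := by
        push_cast
        field_simp
      rw [e1, hs, char_mul_conj, char_mul_conj, ← AddChar.map_add_eq_mul, ← mul_assoc, e2]
      congr 2
      ring
    rw [Finset.sum_congr rfl fun q _ => h1 q, ← Finset.mul_sum, sum_two]
    have h2 : ∑ k : Fin d, ((wt p d (Sum.inr k) : ℝ) : ℂ) * (vec p d (Sum.inr k) a *
        conj (vec p d (Sum.inr k) b) * (vec p d (Sum.inr k) c * conj (vec p d (Sum.inr k) f))) =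
        if b = a ∧ c = a ∧ f = a then 1 else 0 := by
      rw [Finset.sum_eq_single a]
      · simp only [wt, vec, PiLp.single_apply]
        by_cases h1 : b = a <;> by_cases h2 : c = a <;> by_cases h3 : f = a <;>
          simp [h1, h2, h3]
      · intro k _ hk
        simp only [wt, vec, PiLp.single_apply]
        rw [if_neg hk.symm]
        simp
      · simp
    rw [h2]
    by_cases hA : a = b ∧ c = f
    · by_cases hB : a = f ∧ c = b
      · obtain ⟨rfl, rfl⟩ := hA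
        obtain ⟨rfl, -⟩ := hB
        rw [if_pos ((key_comb hp2 hdp _ _ _ _).2 (Or.inl ⟨rfl, rfl⟩))]
        simp [hpc]
      · rw [if_pos ((key_comb hp2 hdp _ _ _ _).2 (Or.inl hA)), if_pos hA, if_neg hB, if_neg]
        · field_simp
        · rintro ⟨h1, h2, h3⟩
          exact hB ⟨h3.symm, by rw [h2, h1]⟩
    · by_cases hB : a = f ∧ c = b
      · rw [if_pos ((key_comb hp2 hdp _ _ _ _).2 (Or.inr hB)), if_neg hA, if_pos hB, if_neg]
        · field_simp
          ring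
        · rintro ⟨h1, h2, h3⟩
          exact hA ⟨h1.symm, by rw [h2, h3]⟩
      · rw [if_neg (fun h => ((key_comb hp2 hdp _ _ _ _).1 h).elim hA hB), if_neg hA, if_neg hB,
          if_neg]
        · simp
        · rintro ⟨h1, h2, h3⟩
          exact hA ⟨h1.symm, by rw [h2, h3]⟩

end chirp

end Pool.Agent.Q240.SIC
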