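import Pool.Agent.H295R3.Hoheisel
import Pool.Agent.Q240.SIC.WDesign

/-!
# Near-minimal weighted designs in every dimension
-/

set_option autoImplicit false

open Finset

namespace Pool.Agent.Q240.SIC

/-- primes just above `d` -/
theorem prime_short : ∃ (δ : ℝ) (d₀ : ℕ), 0 < δ ∧ δ < 1 ∧ 30 ≤ d₀ ∧ ∀ d : ℕ, d₀ ≤ d →
    ∃ q : ℕ, q.Prime ∧ d < q ∧ (q : ℝ) ≤ d + 2 * (d : ℝ) ^ (1 - δ) ∧ q ≤ 2 * d := by
  obtain ⟨δ, η, hδ0, hδ1, hη, X₀, hX₀, h⟩ := Pool.Agent.H295R3.D.hoheisel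
  refine ⟨δ, max X₀ 30, hδ0, hδ1, le_max_right _ _, fun d hd => ?_⟩
  have hd1 : X₀ ≤ d := le_trans (le_max_left _ _) hd
  have hd2 : 30 ≤ d := le_trans (le_max_right _ _) hd
  have hdR : (30 : ℝ) ≤ d := by exact_mod_cast hd2
  have hd0 : (0 : ℝ) < d := by linarith
  have hp1 : (1 : ℝ) ≤ (d : ℝ) ^ (1 - δ) := Real.one_le_rpow (by linarith) (by linarith)
  have hp2 : (d : ℝ) ^ (1 - δ) ≤ d := by
    calc (d : ℝ) ^ (1 - δ) ≤ (d : ℝ) ^ (1 : ℝ) :=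
          Real.rpow_le_rpow_of_exponent_le (by linarith) (by linarith)
      _ = d := Real.rpow_one _
  set Y : ℕ := ⌈(d : ℝ) ^ (1 - δ)⌉₊ with hY
  have hY1 : (d : ℝ) ^ (1 - δ) ≤ Y := Nat.le_ceil _
  have hY2 : Y ≤ d := by
    rw [hY, Nat.ceil_le]
    exact hp2
  have hY3 : (Y : ℝ) ≤ 2 * (d : ℝ) ^ (1 - δ) := by
    have := Nat.ceil_lt_add_one (by linarith : (0 : ℝ) ≤ (d : ℝ) ^ (1 - δ))
    rw [← hY] at this
    linarith
  have h1 := h d Y hd1 hY1 hY2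
  have h2 : (0 : ℝ) < η * Y / Real.log d := by
    apply div_pos (mul_pos hη (by linarith))
    exact Real.log_pos (by linarith)
  have h3 : 0 < ((Ioc d (d + Y)).filter Nat.Prime).card := by
    have := lt_of_lt_of_le h2 h1
    exact_mod_cast this
  obtain ⟨q, hq⟩ := card_pos.mp h3
  rw [mem_filter, mem_Ioc] at hq
  refine ⟨q, hq.2, hq.1.1, ?_, by omega⟩
  have h4 : (q : ℝ) ≤ d + Y := by exact_mod_cast hq.1.2
  linarith

/-- all dimensions -/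
theorem prime_all : ∃ (c C : ℝ), 0 < c ∧ 0 < C ∧ ∀ d : ℕ, 1 ≤ d →
    ∃ q : ℕ, q.Prime ∧ q ≠ 2 ∧ d ≤ q ∧ (q : ℝ) ^ 2 + d ≤ (1 + C * (d : ℝ) ^ (-c)) * (d : ℝ) ^ 2 := by
  obtain ⟨δ, d₀, hδ0, hδ1, hd₀, h⟩ := prime_short
  have hd₀r : (30 : ℝ) ≤ d₀ := by exact_mod_cast hd₀
  refine ⟨δ, 9 + 17 * (d₀ : ℝ) ^ δ, hδ0, by positivity, fun d hd => ?_⟩
  have hdr : (1 : ℝ) ≤ d := by exact_mod_cast hd
  rcases le_or_gt d₀ d with hle | hlt
  · obtain ⟨q, hq, hdq, hqd, -⟩ := h d hle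
    refine ⟨q, hq, by omega, hdq.le, ?_⟩
    have hd30 : (30 : ℝ) ≤ d := by
      have : (d₀ : ℝ) ≤ d := by exact_mod_cast hle
      linarith
    set s := (d : ℝ) ^ (-δ) with hs
    have hs0 : 0 < s := Real.rpow_pos_of_pos (by linarith) _
    have hs1 : s ≤ 1 := Real.rpow_le_one_of_one_le_of_nonpos hdr (by linarith)
    have hpow : (d : ℝ) ^ (1 - δ) = d * s := by
      rw [hs, sub_eq_add_neg, Real.rpow_add (by linarith), Real.rpow_one]
    have hds : 1 ≤ (d : ℝ) * s := by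
      rw [← hpow]
      exact Real.one_le_rpow hdr (by linarith)
    rw [hpow] at hqd
    have hq0 : (0 : ℝ) ≤ q := Nat.cast_nonneg _
    have h1 : (q : ℝ) ^ 2 ≤ (d + 2 * (d * s)) ^ 2 := pow_le_pow_left₀ hq0 hqd 2
    have h2 : (d + 2 * (d * s)) ^ 2 ≤ (1 + 8 * s) * (d : ℝ) ^ 2 := by
      have e1 : ((d : ℝ) + 2 * (d * s)) ^ 2 = (1 + 4 * s + 4 * (s * s)) * (d : ℝ) ^ 2 := by ring
      rw [e1]
      apply mul_le_mul_of_nonneg_right _ (by positivity)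
      have : s * s ≤ s * 1 := mul_le_mul_of_nonneg_left hs1 hs0.le
      linarith
    have h3 : (d : ℝ) ≤ s * (d : ℝ) ^ 2 := by
      have e1 : s * (d : ℝ) ^ 2 = d * (d * s) := by ring
      rw [e1]
      nlinarith
    have h4 : (0 : ℝ) ≤ 17 * (d₀ : ℝ) ^ δ * s * (d : ℝ) ^ 2 := by positivity
    nlinarith
  · obtain ⟨q, hq, h1, h2⟩ := Nat.exists_prime_lt_and_le_two_mul (d + 1) (by omega)
    refine ⟨q, hq, by omega, by omega, ?_⟩
    have hq4 : (q : ℝ) ≤ 4 * d := by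
      have : q ≤ 4 * d := by omega
      exact_mod_cast this
    have hq0 : (0 : ℝ) ≤ q := Nat.cast_nonneg _
    have h3 : (q : ℝ) ^ 2 ≤ (4 * d) ^ 2 := pow_le_pow_left₀ hq0 hq4 2
    have h4 : (1 : ℝ) ≤ (d₀ : ℝ) ^ δ * (d : ℝ) ^ (-δ) := by
      rw [Real.rpow_neg (by linarith), ← div_eq_mul_inv, le_div_iff₀ (Real.rpow_pos_of_pos
        (by linarith) _), one_mul]
      apply Real.rpow_le_rpow (by linarith) _ hδ0.le
      exact_mod_cast hlt.le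
    have h5 : (0 : ℝ) ≤ (d : ℝ) ^ (-δ) := by positivity
    have h6 : (d : ℝ) ≤ (d : ℝ) ^ 2 := by nlinarith
    have h7 : 17 * (d : ℝ) ^ 2 ≤ (1 + (9 + 17 * (d₀ : ℝ) ^ δ) * (d : ℝ) ^ (-δ)) * (d : ℝ) ^ 2 := by
      apply mul_le_mul_of_nonneg_right _ (by positivity)
      nlinarith
    nlinarith

/-- transport along an equivalence -/
theorem IsWD.transport {d : ℕ} {κ κ' : Type} [Fintype κ] [Fintype κ'] (e : κ' ≃ κ)
    {x : κ → EuclideanSpace ℂ (Fin d)} {w : κ → ℝ} (h : IsWD d x w) :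
    IsWD d (fun i => x (e i)) (fun i => w (e i)) := by
  refine ⟨fun i => h.1 _, fun i => h.2.1 _, fun a b c f => ?_⟩
  rw [← h.2.2 a b c f]
  exact Equiv.sum_comp e (fun i => (w i : ℂ) * (x i a * (starRingEnd ℂ) (x i b) *
    (x i c * (starRingEnd ℂ) (x i f))))

theorem near_minimal : ∃ (c C : ℝ), 0 < c ∧ 0 < C ∧ ∀ d : ℕ, 1 ≤ d →
    ∃ (N : ℕ) (x : Fin N → EuclideanSpace ℂ (Fin d)) (w : Fin N → ℝ),
      IsWD d x w ∧ (N : ℝ) ≤ (1 + C * (d : ℝ) ^ (-c)) * (d : ℝ) ^ 2 ∧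
      ∀ i j, w i ≤ (1 + C * (d : ℝ) ^ (-c)) * w j := by
  obtain ⟨c, C, hc, hC, h⟩ := prime_all
  refine ⟨c, C, hc, hC, fun d hd => ?_⟩
  obtain ⟨q, hq, hq2, hdq, hN⟩ := h d hd
  have : Fact q.Prime := ⟨hq⟩
  have hW := chirp_design (p := q) hq2 (d := d) (by omega) hdq
  let e := Fintype.equivFin ((ZMod q × ZMod q) ⊕ Fin d)
  have hcard : Fintype.card ((ZMod q × ZMod q) ⊕ Fin d) = q ^ 2 + d := by
    rw [Fintype.card_sum, Fintype.card_prod, ZMod.card, Fintype.card_fin, sq]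
  have hdr : (0 : ℝ) < d := by
    have : 0 < d := by omega
    exact_mod_cast this
  have hqr : (0 : ℝ) < q := by exact_mod_cast hq.pos
  have hdq' : (d : ℝ) ≤ q := by exact_mod_cast hdq
  set t := C * (d : ℝ) ^ (-c) with ht
  have ht0 : 0 < t := by positivity
  refine ⟨_, _, _, hW.transport e.symm, ?_, ?_⟩
  · rw [hcard]
    push_cast
    exact hN
  · have hr1 : ((d : ℝ) / q) ^ 2 ≤ 1 := by
      apply pow_le_one₀ (by positivity)
      rw [div_le_one hqr]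
      exact hdq'
    have hr2 : 1 ≤ (1 + t) * ((d : ℝ) / q) ^ 2 := by
      rw [div_pow, ← mul_div_assoc, le_div_iff₀ (by positivity), one_mul]
      linarith
    have hr0 : 0 < ((d : ℝ) / q) ^ 2 := by positivity
    intro i j
    rcases e.symm i with a | a <;> rcases e.symm j with b | b <;> simp only [wt]
    · nlinarith
    · nlinarith
    · linarith
    · linarith

end Pool.Agent.Q240.SIC
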