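import Mathlib
import Pool.Agent.Q240.SIC.Gauss

/-!
# A vector with small Weyl-Heisenberg overlaps in every dimension
-/

set_option autoImplicit false

namespace Pool.Agent.Q240.SIC.WH

open scoped ComplexConjugate
open Finset Pool.Agent.Q240.SIC.Gauss

/-- `e(x) = exp(2 π i x)` -/
noncomputable def e (x : ℝ) : ℂ := Complex.exp (2 * Real.pi * Complex.I * x)

theorem e_norm (x : ℝ) : ‖e x‖ = 1 := by
  unfold e
  rw [show (2 * Real.pi * Complex.I * x : ℂ) = ((2 * Real.pi * x : ℝ) : ℂ) * Complex.I by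
      push_cast; ring, Complex.norm_exp_ofReal_mul_I]

theorem e_add (x y : ℝ) : e (x + y) = e x * e y := by
  unfold e
  rw [← Complex.exp_add]
  congr 1
  push_cast
  ring

theorem e_lip (x y : ℝ) : ‖e x - e y‖ ≤ 2 * Real.pi * |x - y| := by
  have h1 : e x - e y = e y * (e (x - y) - 1) := by
    rw [mul_sub, mul_one, ← e_add]
    congr 2
    ring
  rw [h1, norm_mul, e_norm, one_mul]
  unfold e
  rw [show (2 * Real.pi * Complex.I * ((x - y : ℝ) : ℂ) : ℂ) =
    Complex.I * ((2 * Real.pi * (x - y) : ℝ) : ℂ) by push_cast; ring]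
  refine (Real.norm_exp_I_mul_ofReal_sub_one_le).trans (le_of_eq ?_)
  rw [Real.norm_eq_abs, abs_mul, abs_of_pos (by positivity)]

theorem e_int (n : ℤ) : e n = 1 := by
  unfold e
  rw [show (2 * Real.pi * Complex.I * ((n : ℝ) : ℂ) : ℂ) = n * (2 * Real.pi * Complex.I) by
    push_cast; ring]
  exact Complex.exp_int_mul_two_pi_mul_I n

theorem e_half : e (1 / 2) = -1 := by
  unfold e
  rw [show (2 * Real.pi * Complex.I * ((1 / 2 : ℝ) : ℂ) : ℂ) = Real.pi * Complex.I by
    push_cast; ring]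
  exact Complex.exp_pi_mul_I

variable (d : ℕ)

/-- the middle -/
def h : ℤ := ((d + 1) / 2 : ℕ)

/-- first weight -/
noncomputable def w1 (n : ℤ) : ℂ := if 0 ≤ n ∧ n < d then (1 - e (n / d)) / 2 else 0

/-- second weight -/
noncomputable def w2 (n : ℤ) : ℂ := if h d ≤ n ∧ n < h d + d then (1 + e (n / d)) / 2 else 0

variable {d}

theorem w1_norm (n : ℤ) : ‖w1 d n‖ ≤ 1 := by
  unfold w1
  split_ifs
  · rw [norm_div]
    have : ‖1 - e (n / d)‖ ≤ 2 := (norm_sub_le _ _).trans (by rw [e_norm, norm_one]; norm_num)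
    rw [RCLike.norm_ofNat]
    linarith
  · simp

theorem w2_norm (n : ℤ) : ‖w2 d n‖ ≤ 1 := by
  unfold w2
  split_ifs
  · rw [norm_div]
    have : ‖1 + e (n / d)‖ ≤ 2 := (norm_add_le _ _).trans (by rw [e_norm, norm_one]; norm_num)
    rw [RCLike.norm_ofNat]
    linarith
  · simp

theorem pi_le : Real.pi ≤ 4 := Real.pi_le_four

theorem h_bounds (hd : 0 < d) : (d : ℤ) ≤ 2 * h d ∧ 2 * h d ≤ d + 1 ∧ 1 ≤ h d ∧ h d ≤ d := by
  unfold h
  omega

theorem step (hd : 0 < d) (m n : ℤ) (hmn : |(m : ℝ) - n| ≤ 1) :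
    ‖e (m / d) - e (n / d)‖ / 2 ≤ 4 / d := by
  have hdr : (0 : ℝ) < d := by exact_mod_cast hd
  have h1 := e_lip (m / d) (n / d)
  have h2 : |(m : ℝ) / d - n / d| ≤ 1 / d := by
    rw [← sub_div, abs_div, abs_of_pos hdr]
    exact div_le_div_of_nonneg_right hmn hdr.le
  have h3 : 2 * Real.pi * |(m : ℝ) / d - n / d| ≤ 8 * (1 / d) := by
    apply mul_le_mul (by linarith [pi_le]) h2 (abs_nonneg _) (by norm_num)
  have h4 : (8 : ℝ) * (1 / d) = 2 * (4 / d) := by ring
  linarith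

theorem w1_step (hd : 0 < d) (n : ℤ) : ‖w1 d (n + 1) - w1 d n‖ ≤ 4 / d := by
  have hdr : (0 : ℝ) < d := by exact_mod_cast hd
  have hpos : (0 : ℝ) ≤ 4 / d := by positivity
  have hS := step hd n (n + 1) (by push_cast; rw [abs_le]; constructor <;> linarith)
  unfold w1
  by_cases h1 : 0 ≤ n ∧ n < d
  · by_cases h2 : 0 ≤ n + 1 ∧ n + 1 < d
    · rw [if_pos h1, if_pos h2]
      have : (1 - e (((n + 1 : ℤ) : ℝ) / d)) / 2 - (1 - e (n / d)) / 2 =
        (e (n / d) - e (((n + 1 : ℤ) : ℝ) / d)) / 2 := by ring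
      rw [this, norm_div, RCLike.norm_ofNat]
      exact hS
    · rw [if_pos h1, if_neg h2]
      have hn : n + 1 = d := by omega
      have h3 : e (((n + 1 : ℤ) : ℝ) / d) = 1 := by
        rw [hn, Int.cast_natCast, div_self hdr.ne']
        exact_mod_cast e_int 1
      rw [h3] at hS
      rw [zero_sub, norm_neg, norm_div, RCLike.norm_ofNat, norm_sub_rev]
      exact hS
  · rw [if_neg h1]
    by_cases h2 : 0 ≤ n + 1 ∧ n + 1 < d
    · have hn : n + 1 = 0 := by omega
      rw [if_pos h2, hn]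
      have : e (((0 : ℤ) : ℝ) / d) = 1 := by
        rw [Int.cast_zero, zero_div]
        exact_mod_cast e_int 0
      rw [this]
      simpa using hpos
    · rw [if_neg h2, sub_zero, norm_zero]
      exact hpos

theorem half_step (hd : 0 < d) (m : ℤ) (hm : |(m : ℝ) - d / 2| ≤ 1) :
    ‖1 + e (m / d)‖ / 2 ≤ 4 / d := by
  have hdr : (0 : ℝ) < d := by exact_mod_cast hd
  have h1 := e_lip (m / d) (1 / 2)
  rw [e_half, sub_neg_eq_add, add_comm] at h1
  have h2 : |(m : ℝ) / d - 1 / 2| ≤ 1 / d := by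
    have : (m : ℝ) / d - 1 / 2 = (m - d / 2) / d := by field_simp
    rw [this, abs_div, abs_of_pos hdr]
    exact div_le_div_of_nonneg_right hm hdr.le
  have h3 : 2 * Real.pi * |(m : ℝ) / d - 1 / 2| ≤ 8 * (1 / d) := by
    apply mul_le_mul (by linarith [pi_le]) h2 (abs_nonneg _) (by norm_num)
  have h4 : (8 : ℝ) * (1 / d) = 2 * (4 / d) := by ring
  linarith

theorem e_per (hd : 0 < d) (m : ℤ) : e (((m + d : ℤ) : ℝ) / d) = e (m / d) := by
  have hdr : (d : ℝ) ≠ 0 := by exact_mod_cast hd.ne'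
  have : (((m + d : ℤ) : ℝ) / d) = m / d + ((1 : ℤ) : ℝ) := by
    push_cast
    field_simp
  rw [this, e_add, e_int, mul_one]

theorem w2_step (hd : 0 < d) (n : ℤ) : ‖w2 d (n + 1) - w2 d n‖ ≤ 4 / d := by
  have hdr : (0 : ℝ) < d := by exact_mod_cast hd
  have hpos : (0 : ℝ) ≤ 4 / d := by positivity
  obtain ⟨b1, b2, b3, b4⟩ := h_bounds hd
  have c1 : (d : ℝ) ≤ 2 * h d := by exact_mod_cast b1
  have c2 : 2 * (h d : ℝ) ≤ d + 1 := by exact_mod_cast b2
  have hS := step hd (n + 1) n (by push_cast; rw [abs_le]; constructor <;> linarith)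
  unfold w2
  by_cases h1 : h d ≤ n ∧ n < h d + d
  · by_cases h2 : h d ≤ n + 1 ∧ n + 1 < h d + d
    · rw [if_pos h1, if_pos h2]
      have : (1 + e (((n + 1 : ℤ) : ℝ) / d)) / 2 - (1 + e (n / d)) / 2 =
        (e (((n + 1 : ℤ) : ℝ) / d) - e (n / d)) / 2 := by ring
      rw [this, norm_div, RCLike.norm_ofNat]
      exact hS
    · rw [if_pos h1, if_neg h2]
      have hn : n = (h d - 1) + d := by omega
      rw [zero_sub, norm_neg, norm_div, RCLike.norm_ofNat, hn, e_per hd]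
      apply half_step hd
      push_cast
      rw [abs_le]
      constructor <;> linarith
  · rw [if_neg h1]
    by_cases h2 : h d ≤ n + 1 ∧ n + 1 < h d + d
    · have hn : n + 1 = h d := by omega
      rw [if_pos h2, sub_zero, hn, norm_div, RCLike.norm_ofNat]
      apply half_step hd
      rw [abs_le]
      constructor <;> linarith
    · rw [if_neg h2, sub_zero, norm_zero]
      exact hpos

theorem w1_supp (n : ℤ) (hn : n < 0 ∨ (2 * d : ℤ) ≤ n) : w1 d n = 0 := by
  unfold w1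
  rw [if_neg]
  omega

theorem w2_supp (hd : 0 < d) (n : ℤ) (hn : n < 0 ∨ (2 * d : ℤ) ≤ n) : w2 d n = 0 := by
  obtain ⟨b1, b2, b3, b4⟩ := h_bounds hd
  unfold w2
  rw [if_neg]
  omega

theorem w1_zero : w1 d 0 = 0 := by
  unfold w1
  split_ifs
  · rw [Int.cast_zero, zero_div]
    have : e 0 = 1 := by exact_mod_cast e_int 0
    rw [this]; simp
  · rfl

theorem w2_zero (hd : 0 < d) : w2 d 0 = 0 := by
  obtain ⟨b1, b2, b3, b4⟩ := h_bounds hd
  unfold w2
  rw [if_neg]
  omega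

end Pool.Agent.Q240.SIC.WH
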