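import Mathlib
import Pool.Agent.Q240.SIC.WHVec

/-!
# The ambiguity function
-/

set_option autoImplicit false

namespace Pool.Agent.Q240.SIC.WH

open scoped ComplexConjugate
open Finset Pool.Agent.Q240.SIC.Gauss

variable {d : ℕ} {p : ℕ} [Fact p.Prime]

/-- the additive character modulo `p` -/
noncomputable def X (p : ℕ) [Fact p.Prime] (n : ℤ) : ℂ :=
  haveI : NeZero p := ⟨(Fact.out : p.Prime).ne_zero⟩
  ZMod.stdAddChar ((n : ℤ) : ZMod p)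

theorem X_norm (n : ℤ) : ‖X p n‖ = 1 := char_norm _

/-- cubic phases -/
def P (κ n : ℤ) : ℤ := n ^ 3 + κ * n ^ 2

theorem X_pow (c : ℤ) (n : ℕ) : X p (c * n) = e (c / p) ^ n := by
  unfold X e
  rw [ZMod.stdAddChar_coe, ← Complex.exp_nat_mul]
  congr 1
  push_cast
  ring

theorem term_bound (hp2 : p ≠ 2) (hd : 0 < d) (hdp : 2 * d + 1 ≤ p) (hpd : p ≤ 28 * d)
    {u v : ℤ → ℂ} (hu1 : ∀ n, ‖u n‖ ≤ 1) (hv1 : ∀ n, ‖v n‖ ≤ 1)
    (hu2 : ∀ n, ‖u (n + 1) - u n‖ ≤ 4 / d) (hv2 : ∀ n, ‖v (n + 1) - v n‖ ≤ 4 / d)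
    (hu0 : u 0 = 0) (hu3 : u (2 * d : ℕ) = 0) (κ₁ κ₂ A : ℤ)
    (hα : ((3 * A + κ₁ - κ₂ : ℤ) : ZMod p) ≠ 0) (β : ℝ) :
    ‖∑ n ∈ range (2 * d), (u n * X p (P κ₁ n)) * conj (v (n - A) * X p (P κ₂ (n - A))) *
      e β ^ n‖ ≤ 225 * Real.sqrt d := by
  have hdr : (0 : ℝ) < d := by exact_mod_cast hd
  set γ : ℤ := -3 * A ^ 2 + 2 * A * κ₂ with hγ
  set δ : ℤ := A ^ 3 - κ₂ * A ^ 2 with hδ
  set α : ℤ := 3 * A + κ₁ - κ₂ with hαd
  let w : ℕ → ℂ := fun n => u n * conj (v ((n : ℤ) - A))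
  have h1 : ∀ n ∈ range (2 * d), (u n * X p (P κ₁ n)) * conj (v (n - A) * X p (P κ₂ (n - A))) *
      e β ^ n = X p δ * (w n * Complex.exp (2 * Real.pi * Complex.I * ((γ / p + β : ℝ) : ℂ)) ^ n *
      ZMod.stdAddChar ((α : ZMod p) * (n : ZMod p) ^ 2)) := by
    intro n _
    have e1 : X p (P κ₁ n) * conj (X p (P κ₂ (n - A))) =
        X p δ * X p (γ * n) * (ZMod.stdAddChar ((α : ZMod p) * (n : ZMod p) ^ 2) : ℂ) := by
      have e2 : P κ₁ n - P κ₂ (n - A) = δ + γ * n + α * (n : ℤ) ^ 2 := by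
        simp only [P, hγ, hδ, hαd]
        ring
      unfold X
      rw [conj_char, ← AddChar.map_add_eq_mul, ← AddChar.map_add_eq_mul, ← AddChar.map_add_eq_mul]
      congr 1
      have e3 := congrArg (fun z : ℤ => (z : ZMod p)) e2
      push_cast at e3 ⊢
      rw [← e3]
      ring
    have e4 : Complex.exp (2 * Real.pi * Complex.I * ((γ / p + β : ℝ) : ℂ)) = e (γ / p) * e β := by
      rw [← e_add]; rfl
    rw [e4, mul_pow, ← X_pow, map_mul]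
    calc u n * X p (P κ₁ n) * (conj (v (n - A)) * conj (X p (P κ₂ (n - A)))) * e β ^ n
        = (u n * conj (v (n - A))) * (X p (P κ₁ n) * conj (X p (P κ₂ (n - A)))) * e β ^ n := by ring
      _ = _ := by rw [e1]; simp only [w]; ring
  rw [Finset.sum_congr rfl h1, ← Finset.mul_sum, norm_mul, X_norm, one_mul]
  have hw0 : w 0 = 0 := by simp [w, hu0]
  have hwN : w (2 * d) = 0 := by simp only [w]; rw [hu3, zero_mul]
  have hb := smooth_bound hp2 hα (γ / p + β) (2 * d) (by omega) w hwN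
  have hw1 : ∀ n, ‖w n‖ ^ 2 ≤ 1 := by
    intro n
    apply pow_le_one₀ (norm_nonneg _)
    simp only [w]
    rw [norm_mul, Complex.norm_conj]
    exact mul_le_one₀ (hu1 _) (norm_nonneg _) (hv1 _)
  have hw2 : ∀ n, ‖w (n + 1) - w n‖ ^ 2 ≤ (8 / d) ^ 2 := by
    intro n
    apply pow_le_pow_left₀ (norm_nonneg _)
    simp only [w]
    have e1 : u ((n + 1 : ℕ) : ℤ) * conj (v (((n + 1 : ℕ) : ℤ) - A)) - u n * conj (v ((n : ℤ) - A)) =
        (u ((n : ℤ) + 1) - u n) * conj (v ((n : ℤ) - A + 1)) +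
          u n * conj (v ((n : ℤ) - A + 1) - v ((n : ℤ) - A)) := by
      rw [show (((n + 1 : ℕ) : ℤ) - A) = (n : ℤ) - A + 1 by push_cast; ring, map_sub]
      push_cast
      ring
    rw [e1]
    refine (norm_add_le _ _).trans ?_
    rw [norm_mul, norm_mul, Complex.norm_conj, Complex.norm_conj]
    have a1 : ‖u ((n : ℤ) + 1) - u n‖ * ‖v ((n : ℤ) - A + 1)‖ ≤ 4 / d * 1 :=
      mul_le_mul (hu2 _) (hv1 _) (norm_nonneg _) (by positivity)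
    have a2 : ‖u n‖ * ‖v ((n : ℤ) - A + 1) - v ((n : ℤ) - A)‖ ≤ 1 * (4 / d) :=
      mul_le_mul (hu1 _) (hv2 _) (norm_nonneg _) (by norm_num)
    have : (8 : ℝ) / d = 4 / d * 1 + 1 * (4 / d) := by ring
    linarith
  have s1 : ∑ n ∈ range (2 * d), ‖w n‖ ^ 2 ≤ 2 * d := by
    refine (Finset.sum_le_sum fun n _ => hw1 n).trans ?_
    simp
  have s2 : ∑ n ∈ range (2 * d), ‖w (n + 1) - w n‖ ^ 2 ≤ 128 / d := by
    refine (Finset.sum_le_sum fun n _ => hw2 n).trans ?_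
    rw [Finset.sum_const, card_range, nsmul_eq_mul]
    push_cast
    rw [div_pow]
    apply le_of_eq
    field_simp
    norm_num
  have hpr : (p : ℝ) ≤ 28 * d := by exact_mod_cast hpd
  have hp2' : (p : ℝ) ^ 2 ≤ (28 * d) ^ 2 := pow_le_pow_left₀ (Nat.cast_nonneg _) hpr 2
  rw [hw0, norm_zero] at hb
  have hfin : ‖∑ n ∈ range (2 * d), w n *
      Complex.exp (2 * Real.pi * Complex.I * ((γ / p + β : ℝ) : ℂ)) ^ n *
      (ZMod.stdAddChar ((α : ZMod p) * (n : ZMod p) ^ 2) : ℂ)‖ ^ 2 ≤ (225 * Real.sqrt d) ^ 2 := by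
    refine hb.trans ?_
    rw [mul_pow, Real.sq_sqrt hdr.le]
    have s3 : (p : ℝ) ^ 2 / 16 * (0 ^ 2 + ∑ n ∈ range (2 * d), ‖w (n + 1) - w n‖ ^ 2) ≤
        (28 * d) ^ 2 / 16 * (128 / d) := by
      apply mul_le_mul
      · linarith
      · linarith
      · positivity
      · positivity
    have s4 : (28 * (d : ℝ)) ^ 2 / 16 * (128 / d) = 6272 * d := by
      field_simp
      norm_num
    linarith
  exact (pow_le_pow_iff_left₀ (norm_nonneg _) (by positivity) two_ne_zero).1 hfin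

/-- the sequence on the integers -/
noncomputable def H (d p : ℕ) [Fact p.Prime] (κ : ℤ) (n : ℤ) : ℂ :=
  w1 d n * X p (P 0 n) + w2 d n * X p (P κ n)

theorem H_supp (hd : 0 < d) (κ : ℤ) (n : ℤ) (hn : n < 0 ∨ (2 * d : ℤ) ≤ n) : H d p κ n = 0 := by
  unfold H
  rw [w1_supp n hn, w2_supp hd n hn]
  simp

/-- the correlations -/
noncomputable def Cor (d p : ℕ) [Fact p.Prime] (κ A : ℤ) (β : ℝ) : ℂ :=
  ∑ n ∈ range (2 * d), H d p κ n * conj (H d p κ (n - A)) * e β ^ n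

/-- the diagonal part -/
noncomputable def Dia (d : ℕ) (β : ℝ) : ℂ :=
  ∑ n ∈ range (2 * d), (((‖w1 d n‖ ^ 2 + ‖w2 d n‖ ^ 2 : ℝ) : ℂ)) * e β ^ n

theorem cor_bound (hd : 0 < d) (hdp : 12 * d + 3 ≤ p) (hpd : p ≤ 28 * d) (κ : ℤ)
    (hκ : 2 * κ = p - 1) (A : ℤ) (hA1 : -(2 * d : ℤ) < A) (hA2 : A < 2 * d) (β : ℝ) :
    ‖Cor d p κ A β - if A = 0 then Dia d β else 0‖ ≤ 900 * Real.sqrt d := by
  have hp2 : p ≠ 2 := by omega
  have hdp' : 2 * d + 1 ≤ p := by omega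
  have nz : ∀ z : ℤ, z ≠ 0 → -(p : ℤ) < z → z < p → ((z : ℤ) : ZMod p) ≠ 0 := by
    intro z hz h1 h2 h3
    rw [ZMod.intCast_zmod_eq_zero_iff_dvd] at h3
    exact hz (Int.eq_zero_of_abs_lt_dvd h3 (abs_lt.2 ⟨h1, h2⟩))
  have hw1 := w1_norm (d := d)
  have hw2 := w2_norm (d := d)
  have hs1 := w1_step hd
  have hs2 := w2_step hd
  have e1 : w1 d (2 * d : ℕ) = 0 := w1_supp _ (Or.inr (by push_cast; rfl))
  have e2 : w2 d (2 * d : ℕ) = 0 := w2_supp hd _ (Or.inr (by push_cast; rfl))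
  let Tm : (ℤ → ℂ) → (ℤ → ℂ) → ℤ → ℤ → ℂ := fun u v κ₁ κ₂ =>
    ∑ n ∈ range (2 * d), (u n * X p (P κ₁ n)) * conj (v (n - A) * X p (P κ₂ (n - A))) * e β ^ n
  have hC : Cor d p κ A β = Tm (w1 d) (w1 d) 0 0 + Tm (w1 d) (w2 d) 0 κ +
      Tm (w2 d) (w1 d) κ 0 + Tm (w2 d) (w2 d) κ κ := by
    simp only [Tm, Cor, H]
    rw [← Finset.sum_add_distrib, ← Finset.sum_add_distrib, ← Finset.sum_add_distrib]
    refine Finset.sum_congr rfl fun n _ => ?_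
    rw [map_add]
    ring
  have b12 : ‖Tm (w1 d) (w2 d) 0 κ‖ ≤ 225 * Real.sqrt d :=
    term_bound hp2 hd hdp' hpd hw1 hw2 hs1 hs2 w1_zero e1 0 κ A (nz _ (by omega) (by omega)
      (by omega)) β
  have b21 : ‖Tm (w2 d) (w1 d) κ 0‖ ≤ 225 * Real.sqrt d :=
    term_bound hp2 hd hdp' hpd hw2 hw1 hs2 hs1 (w2_zero hd) e2 κ 0 A (nz _ (by omega) (by omega)
      (by omega)) β
  have hsq : 0 ≤ Real.sqrt (d : ℝ) := Real.sqrt_nonneg _
  by_cases hA : A = 0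
  · rw [if_pos hA]
    subst hA
    have hdia : Tm (w1 d) (w1 d) 0 0 + Tm (w2 d) (w2 d) κ κ = Dia d β := by
      simp only [Tm, Dia, sub_zero]
      rw [← Finset.sum_add_distrib]
      refine Finset.sum_congr rfl fun n _ => ?_
      have k1 : ∀ (a b : ℂ), ‖b‖ = 1 → (a * b) * conj (a * b) = ((‖a‖ ^ 2 : ℝ) : ℂ) := by
        intro a b hb
        rw [Complex.mul_conj, Complex.normSq_eq_norm_sq, norm_mul, hb, mul_one]
      rw [k1 _ _ (X_norm _), k1 _ _ (X_norm _)]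
      push_cast
      ring
    rw [hC, ← hdia]
    have : Tm (w1 d) (w1 d) 0 0 + Tm (w1 d) (w2 d) 0 κ + Tm (w2 d) (w1 d) κ 0 +
        Tm (w2 d) (w2 d) κ κ - (Tm (w1 d) (w1 d) 0 0 + Tm (w2 d) (w2 d) κ κ) =
        Tm (w1 d) (w2 d) 0 κ + Tm (w2 d) (w1 d) κ 0 := by ring
    rw [this]
    refine (norm_add_le _ _).trans ?_
    linarith
  · rw [if_neg hA, sub_zero, hC]
    have b11 : ‖Tm (w1 d) (w1 d) 0 0‖ ≤ 225 * Real.sqrt d :=
      term_bound hp2 hd hdp' hpd hw1 hw1 hs1 hs1 w1_zero e1 0 0 A (nz _ (by omega) (by omega)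
        (by omega)) β
    have b22 : ‖Tm (w2 d) (w2 d) κ κ‖ ≤ 225 * Real.sqrt d :=
      term_bound hp2 hd hdp' hpd hw2 hw2 hs2 hs2 (w2_zero hd) e2 κ κ A (nz _ (by omega) (by omega)
        (by omega)) β
    have n1 := norm_add_le (Tm (w1 d) (w1 d) 0 0 + Tm (w1 d) (w2 d) 0 κ + Tm (w2 d) (w1 d) κ 0)
      (Tm (w2 d) (w2 d) κ κ)
    have n2 := norm_add_le (Tm (w1 d) (w1 d) 0 0 + Tm (w1 d) (w2 d) 0 κ) (Tm (w2 d) (w1 d) κ 0)
    have n3 := norm_add_le (Tm (w1 d) (w1 d) 0 0) (Tm (w1 d) (w2 d) 0 κ)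
    linarith

end Pool.Agent.Q240.SIC.WH
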