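import Mathlib
import Pool.Agent.Q240.SIC.WHAmb

/-!
# The final vector
-/

set_option autoImplicit false

namespace Pool.Agent.Q240.SIC.WH

open scoped ComplexConjugate
open Finset Pool.Agent.Q240.SIC.Gauss

variable {d : ℕ} [NeZero d] {p : ℕ} [Fact p.Prime]

/-- the additive character modulo `d` -/
noncomputable abbrev Y (a : ZMod d) : ℂ := ZMod.stdAddChar a

theorem Y_norm (a : ZMod d) : ‖Y a‖ = 1 := AddChar.norm_apply _ _

theorem Y_sum (b : ZMod d) : ∑ j : ZMod d, Y (b * j) = if b = 0 then (d : ℂ) else 0 := by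
  have h := AddChar.sum_mulShift b (ZMod.isPrimitive_stdAddChar d)
  rw [ZMod.card] at h
  simp_rw [mul_comm b]
  rw [h]
  split_ifs <;> simp

theorem Y_pow (b : ZMod d) (n : ℕ) : Y (b * (n : ZMod d)) = e ((b.val : ℝ) / d) ^ n := by
  have : b * (n : ZMod d) = (((b.val : ℤ) * (n : ℤ) : ℤ) : ZMod d) := by
    push_cast
    rw [ZMod.natCast_zmod_val]
  unfold Y e
  rw [this, ZMod.stdAddChar_coe, ← Complex.exp_nat_mul]
  congr 1
  push_cast
  ring

/-- the vector, not yet normalised -/
noncomputable def psi (d p : ℕ) [NeZero d] [Fact p.Prime] (κ : ℤ) (j : ZMod d) : ℂ :=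
  ∑ n ∈ range (2 * d), if (n : ZMod d) = j then H d p κ n else 0

/-- the ambiguity function of `f` -/
noncomputable def Amb (f : ZMod d → ℂ) (a b : ZMod d) : ℂ :=
  ∑ j, f j * conj (f (j - a)) * Y (b * j)

theorem amb_eq (κ : ℤ) (a b : ZMod d) : Amb (psi d p κ) a b =
    ∑ A ∈ Finset.Ioo (-(2 * d : ℤ)) (2 * d), if (A : ZMod d) = a then
      Cor d p κ A ((b.val : ℝ) / d) else 0 := by
  have hd : 0 < d := Nat.pos_of_ne_zero (NeZero.ne d)
  have h1 : Amb (psi d p κ) a b = ∑ n ∈ range (2 * d), ∑ m ∈ range (2 * d),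
      if (m : ZMod d) = n - a then H d p κ n * conj (H d p κ m) * Y (b * (n : ZMod d)) else 0 := by
    unfold Amb psi
    have e1 : ∀ j : ZMod d, (∑ n ∈ range (2 * d), if (n : ZMod d) = j then H d p κ n else 0) *
        conj (∑ m ∈ range (2 * d), if (m : ZMod d) = j - a then H d p κ m else 0) * Y (b * j) =
        ∑ n ∈ range (2 * d), ∑ m ∈ range (2 * d), if (n : ZMod d) = j then
          (if (m : ZMod d) = n - a then H d p κ n * conj (H d p κ m) * Y (b * (n : ZMod d)) else 0)
          else 0 := by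
      intro j
      rw [map_sum, Finset.sum_mul_sum, Finset.sum_mul]
      refine Finset.sum_congr rfl fun n _ => ?_
      rw [Finset.sum_mul]
      refine Finset.sum_congr rfl fun m _ => ?_
      by_cases hn : (n : ZMod d) = j
      · subst hn
        by_cases hm : (m : ZMod d) = n - a
        · simp [hm]
        · simp [hm]
      · simp [hn]
    rw [Finset.sum_congr rfl fun j _ => e1 j, Finset.sum_comm]
    refine Finset.sum_congr rfl fun n _ => ?_
    rw [Finset.sum_comm]
    refine Finset.sum_congr rfl fun m _ => ?_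
    rw [Finset.sum_ite_eq, if_pos (mem_univ _)]
  have h2 : ∀ n ∈ range (2 * d), ∑ m ∈ range (2 * d),
      (if (m : ZMod d) = n - a then H d p κ n * conj (H d p κ m) * Y (b * (n : ZMod d)) else 0) =
      ∑ A ∈ Finset.Ioo (-(2 * d : ℤ)) (2 * d), if (A : ZMod d) = a then
        H d p κ n * conj (H d p κ (n - A)) * Y (b * (n : ZMod d)) else 0 := by
    intro n hn
    have hn' := mem_range.1 hn
    -- reindex by `m = n - A`
    rw [← Finset.sum_subset (s₁ := (range (2 * d)).image (fun m : ℕ => (n : ℤ) - m))]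
    · rw [Finset.sum_image]
      · refine Finset.sum_congr rfl fun m _ => ?_
        have e1 : ((((n : ℤ) - m : ℤ) : ZMod d) = a) ↔ ((m : ZMod d) = n - a) := by
          push_cast
          constructor
          · intro h; rw [← h]; ring
          · intro h; rw [h]; ring
        have e2 : (n : ℤ) - ((n : ℤ) - m) = m := by ring
        by_cases hm : (m : ZMod d) = n - a
        · rw [if_pos hm, if_pos (e1.2 hm), e2]
        · rw [if_neg hm, if_neg (fun h => hm (e1.1 h))]
      · intro m _ m' _ h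
        have : (n : ℤ) - m = n - m' := h
        omega
    · intro A hA
      obtain ⟨m, hm, rfl⟩ := Finset.mem_image.1 hA
      have hm' := mem_range.1 hm
      rw [Finset.mem_Ioo]
      constructor <;> omega
    · intro A hA hA'
      have : (n : ℤ) - A < 0 ∨ (2 * d : ℤ) ≤ n - A := by
        by_contra hcon
        push Not at hcon
        apply hA'
        rw [Finset.mem_image]
        refine ⟨((n : ℤ) - A).toNat, mem_range.2 ?_, ?_⟩
        · omega
        · omega
      rw [H_supp hd κ _ this]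
      simp
  rw [h1, Finset.sum_congr rfl h2, Finset.sum_comm]
  refine Finset.sum_congr rfl fun A _ => ?_
  by_cases hA : (A : ZMod d) = a
  · simp only [hA, if_true, Cor]
    refine Finset.sum_congr rfl fun n _ => ?_
    rw [Y_pow]
  · simp [hA]

theorem card_filter_le (a : ZMod d) :
    ((Finset.Ioo (-(2 * d : ℤ)) (2 * d)).filter fun A : ℤ => (A : ZMod d) = a).card ≤ 4 := by
  have hd : 0 < d := Nat.pos_of_ne_zero (NeZero.ne d)
  have hsub : ((Finset.Ioo (-(2 * d : ℤ)) (2 * d)).filter fun A : ℤ => (A : ZMod d) = a) ⊆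
      (Finset.Icc (-2 : ℤ) 1).image (fun k : ℤ => (a.val : ℤ) + k * d) := by
    intro A hA
    obtain ⟨hA1, hA2⟩ := Finset.mem_filter.1 hA
    rw [Finset.mem_Ioo] at hA1
    have h1 : ((A - a.val : ℤ) : ZMod d) = 0 := by
      push_cast
      rw [hA2, ZMod.natCast_zmod_val, sub_self]
    rw [ZMod.intCast_zmod_eq_zero_iff_dvd] at h1
    obtain ⟨k, hk⟩ := h1
    have hv : a.val < d := ZMod.val_lt a
    have hd' : (0 : ℤ) < d := by exact_mod_cast hd
    have hv' : (a.val : ℤ) < d := by exact_mod_cast hv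
    rw [Finset.mem_image]
    refine ⟨k, ?_, by linarith⟩
    rw [Finset.mem_Icc]
    constructor
    · by_contra hc
      push Not at hc
      have : (d : ℤ) * k ≤ d * (-3) := mul_le_mul_of_nonneg_left (by omega) hd'.le
      omega
    · by_contra hc
      push Not at hc
      have : (d : ℤ) * 2 ≤ d * k := mul_le_mul_of_nonneg_left (by omega) hd'.le
      omega
  refine (Finset.card_le_card hsub).trans (Finset.card_image_le.trans ?_)
  simp

/-- sums over a period -/
theorem sum_period (g : ZMod d → ℂ) (s : ℕ) :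
    ∑ n ∈ Finset.Ico s (s + d), g (n : ZMod d) = ∑ j : ZMod d, g j := by
  have hd : 0 < d := Nat.pos_of_ne_zero (NeZero.ne d)
  refine Finset.sum_nbij (fun n : ℕ => (n : ZMod d)) ?_ ?_ ?_ ?_
  · intro n _; exact mem_univ _
  · intro n hn m hm h
    have hn' := Finset.mem_Ico.1 (Finset.mem_coe.1 hn)
    have hm' := Finset.mem_Ico.1 (Finset.mem_coe.1 hm)
    have h1 : (((n : ℤ) - m : ℤ) : ZMod d) = 0 := by
      push_cast
      have h' : (n : ZMod d) = (m : ZMod d) := h
      rw [h', sub_self]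
    rw [ZMod.intCast_zmod_eq_zero_iff_dvd] at h1
    have := Int.eq_zero_of_abs_lt_dvd h1 (abs_lt.2 ⟨by omega, by omega⟩)
    omega
  · intro j _
    refine ⟨s + (j - (s : ZMod d)).val, ?_, ?_⟩
    · rw [Finset.mem_coe, Finset.mem_Ico]
      have := ZMod.val_lt (j - (s : ZMod d))
      omega
    · push_cast
      rw [ZMod.natCast_zmod_val]
      ring
  · intro n _; rfl

theorem norm_sq_one_add (z : ℂ) (hz : ‖z‖ = 1) :
    ((‖(1 + z) / 2‖ ^ 2 : ℝ) : ℂ) = 1 / 2 + (z + conj z) / 4 := by
  rw [← Complex.normSq_eq_norm_sq, ← Complex.mul_conj]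
  simp only [map_div₀, map_add, map_one, map_ofNat]
  have h : z * conj z = 1 := by
    rw [Complex.mul_conj, Complex.normSq_eq_norm_sq, hz]; simp
  linear_combination h / 4

theorem norm_sq_one_sub (z : ℂ) (hz : ‖z‖ = 1) :
    ((‖(1 - z) / 2‖ ^ 2 : ℝ) : ℂ) = 1 / 2 - (z + conj z) / 4 := by
  have := norm_sq_one_add (-z) (by rw [norm_neg]; exact hz)
  rw [← sub_eq_add_neg] at this
  rw [this, map_neg]
  ring

theorem Y_one (n : ℕ) : e ((n : ℝ) / d) = Y (n : ZMod d) := by
  have : (n : ZMod d) = ((n : ℤ) : ZMod d) := by push_cast; rfl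
  unfold Y e
  rw [this, ZMod.stdAddChar_coe]
  congr 1
  push_cast
  ring

theorem dia_eq (b : ZMod d) : Dia d ((b.val : ℝ) / d) = if b = 0 then (d : ℂ) else 0 := by
  have hd : 0 < d := Nat.pos_of_ne_zero (NeZero.ne d)
  obtain ⟨b1, b2, b3, b4⟩ := h_bounds hd
  obtain ⟨s, hs⟩ : ∃ s : ℕ, (s : ℤ) = h d := ⟨(d + 1) / 2, rfl⟩
  let g1 : ZMod d → ℂ := fun j => (1 / 2 - (Y j + conj (Y j)) / 4) * Y (b * j)
  let g2 : ZMod d → ℂ := fun j => (1 / 2 + (Y j + conj (Y j)) / 4) * Y (b * j)
  have e1 : Dia d ((b.val : ℝ) / d) = ∑ n ∈ Finset.Ico 0 (0 + d), g1 (n : ZMod d) +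
      ∑ n ∈ Finset.Ico s (s + d), g2 (n : ZMod d) := by
    unfold Dia
    have k1 : ∑ n ∈ Finset.Ico 0 (0 + d), g1 (n : ZMod d) =
        ∑ n ∈ range (2 * d), ((‖w1 d n‖ ^ 2 : ℝ) : ℂ) * e ((b.val : ℝ) / d) ^ n := by
      symm
      rw [← Finset.sum_subset (s₁ := Finset.Ico 0 (0 + d))]
      · refine Finset.sum_congr rfl fun n hn => ?_
        have hn' := Finset.mem_Ico.1 hn
        rw [← Y_pow]
        simp only [g1]
        congr 1
        unfold w1
        rw [if_pos (by omega), Int.cast_natCast, Y_one, norm_sq_one_sub _ (Y_norm _)]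
      · intro n hn
        have hn' := Finset.mem_Ico.1 hn
        rw [mem_range]; omega
      · intro n hn hn'
        unfold w1
        rw [if_neg]
        · simp
        · rw [Finset.mem_Ico] at hn'
          omega
    have k2 : ∑ n ∈ Finset.Ico s (s + d), g2 (n : ZMod d) =
        ∑ n ∈ range (2 * d), ((‖w2 d n‖ ^ 2 : ℝ) : ℂ) * e ((b.val : ℝ) / d) ^ n := by
      symm
      rw [← Finset.sum_subset (s₁ := Finset.Ico s (s + d))]
      · refine Finset.sum_congr rfl fun n hn => ?_
        have hn' := Finset.mem_Ico.1 hn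
        rw [← Y_pow]
        simp only [g2]
        congr 1
        unfold w2
        rw [if_pos (by omega), Int.cast_natCast, Y_one, norm_sq_one_add _ (Y_norm _)]
      · intro n hn
        have hn' := Finset.mem_Ico.1 hn
        rw [mem_range]; omega
      · intro n hn hn'
        unfold w2
        rw [if_neg]
        · simp
        · rw [Finset.mem_Ico] at hn'
          omega
    rw [k1, k2, ← Finset.sum_add_distrib]
    refine Finset.sum_congr rfl fun n _ => ?_
    push_cast
    ring
  rw [e1, sum_period, sum_period, ← Finset.sum_add_distrib, ← Y_sum]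
  refine Finset.sum_congr rfl fun j _ => ?_
  simp only [g1, g2]
  ring

theorem amb_bound (hdp : 12 * d + 3 ≤ p) (hpd : p ≤ 28 * d) (κ : ℤ)
    (hκ : 2 * κ = p - 1) (a b : ZMod d) :
    ‖Amb (psi d p κ) a b - if a = 0 ∧ b = 0 then (d : ℂ) else 0‖ ≤ 3600 * Real.sqrt d := by
  have hd : 0 < d := Nat.pos_of_ne_zero (NeZero.ne d)
  set β : ℝ := (b.val : ℝ) / d with hβ
  have hE : (if a = 0 ∧ b = 0 then (d : ℂ) else 0) =
      ∑ A ∈ Finset.Ioo (-(2 * d : ℤ)) (2 * d), if (A : ZMod d) = a then
        (if A = 0 then Dia d β else 0) else 0 := by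
    rw [Finset.sum_eq_single 0]
    · rw [dia_eq]
      by_cases ha : a = 0
      · simp [ha]
      · have ha' : ¬ (0 : ZMod d) = a := fun h => ha h.symm
        simp [ha, ha']
    · intro A _ hA
      rw [if_neg hA, ite_self]
    · intro hn
      exfalso
      apply hn
      rw [Finset.mem_Ioo]
      omega
  rw [amb_eq, hE, ← Finset.sum_sub_distrib]
  have e1 : ∀ A ∈ Finset.Ioo (-(2 * d : ℤ)) (2 * d), ((if (A : ZMod d) = a then
      Cor d p κ A β else 0) - if (A : ZMod d) = a then (if A = 0 then Dia d β else 0) else 0) =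
      if (A : ZMod d) = a then Cor d p κ A β - (if A = 0 then Dia d β else 0) else 0 := by
    intro A _
    split_ifs <;> simp
  rw [Finset.sum_congr rfl e1, ← Finset.sum_filter]
  refine (norm_sum_le _ _).trans ?_
  have hcard := card_filter_le a
  have hs : 0 ≤ Real.sqrt (d : ℝ) := Real.sqrt_nonneg _
  calc ∑ A ∈ (Finset.Ioo (-(2 * d : ℤ)) (2 * d)).filter (fun A : ℤ => (A : ZMod d) = a),
        ‖Cor d p κ A β - (if A = 0 then Dia d β else 0)‖
      ≤ ∑ A ∈ (Finset.Ioo (-(2 * d : ℤ)) (2 * d)).filter (fun A : ℤ => (A : ZMod d) = a),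
        900 * Real.sqrt d := by
        refine Finset.sum_le_sum fun A hA => ?_
        have hA' := Finset.mem_Ioo.1 (Finset.mem_filter.1 hA).1
        exact cor_bound hd hdp hpd κ hκ A hA'.1 hA'.2 β
    _ ≤ 4 * (900 * Real.sqrt d) := by
        rw [Finset.sum_const, nsmul_eq_mul]
        apply mul_le_mul_of_nonneg_right _ (by positivity)
        exact_mod_cast hcard
    _ = 3600 * Real.sqrt d := by ring

end Pool.Agent.Q240.SIC.WH
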